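import Mathlib

set_option autoImplicit false

/-!
# Integrals of homogeneous functions against `exp (-p)`
-/

namespace Pool.Agent.TH591.Sm

open MeasureTheory Set
open scoped ENNReal NNReal

variable {E : Type*} [NormedAddCommGroup E] [InnerProductSpace ℝ E] [FiniteDimensional ℝ E]
  [MeasurableSpace E] [BorelSpace E]

theorem lint_smul (f : E → ℝ≥0∞) (hf : Measurable f) (r : ℝ) (hr : 0 < r) :
    ∫⁻ x, f (r • x) = ENNReal.ofReal ((r ^ Module.finrank ℝ E)⁻¹) * ∫⁻ x, f x := by
  have h1 := Measure.map_addHaar_smul (volume : Measure E) hr.ne'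
  have h2 : ∫⁻ x, f (r • x) = ∫⁻ y, f y ∂(Measure.map (fun x : E => r • x) volume) :=
    (lintegral_map hf (measurable_const_smul r)).symm
  rw [h2, h1, lintegral_smul_measure, smul_eq_mul, abs_of_pos (by positivity)]

theorem lint_gamma (n : ℕ) :
    ∫⁻ s in Ioi (0 : ℝ), ENNReal.ofReal (Real.exp (-s)) * ENNReal.ofReal (s ^ n)
      = ENNReal.ofReal (n.factorial : ℝ) := by
  have h1 : (n.factorial : ℝ) = ∫ s in Ioi (0 : ℝ), Real.exp (-s) * s ^ n := by
    rw [← Real.Gamma_nat_eq_factorial, Real.Gamma_eq_integral (by positivity)]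
    refine setIntegral_congr_fun measurableSet_Ioi fun s hs => ?_
    show Real.exp (-s) * s ^ ((n : ℝ) + 1 - 1) = Real.exp (-s) * s ^ n
    rw [add_sub_cancel_right, Real.rpow_natCast]
  have h2 : IntegrableOn (fun s : ℝ => Real.exp (-s) * s ^ n) (Ioi 0) := by
    have h := Real.GammaIntegral_convergent (s := (n : ℝ) + 1) (by positivity)
    refine h.congr_fun (fun s hs => ?_) measurableSet_Ioi
    show Real.exp (-s) * s ^ ((n : ℝ) + 1 - 1) = Real.exp (-s) * s ^ n
    rw [add_sub_cancel_right, Real.rpow_natCast]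
  rw [h1, ofReal_integral_eq_lintegral_ofReal h2]
  · refine setLIntegral_congr_fun measurableSet_Ioi fun s hs => ?_
    rw [ENNReal.ofReal_mul (Real.exp_pos _).le]
  · filter_upwards [ae_restrict_mem measurableSet_Ioi] with s hs
    have : (0 : ℝ) < s := hs
    positivity

theorem lint_exp (c : ℝ) :
    ∫⁻ s in Ici c, ENNReal.ofReal (Real.exp (-s)) = ENNReal.ofReal (Real.exp (-c)) := by
  rw [setLIntegral_congr (Ioi_ae_eq_Ici (a := c) (μ := volume)).symm]
  have h2 : IntegrableOn (fun s : ℝ => Real.exp (-s)) (Ioi c) := by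
    have h := exp_neg_integrableOn_Ioi c (b := 1) one_pos
    refine h.congr_fun (fun s _ => ?_) measurableSet_Ioi
    simp
  rw [← ofReal_integral_eq_lintegral_ofReal h2
    (Filter.Eventually.of_forall fun _ => (Real.exp_pos _).le), integral_exp_neg_Ioi]

/-- The layer-cake formula for a homogeneous function. -/
theorem layer (p : Seminorm ℝ E) (hp : Continuous p) (φ : E → ℝ≥0∞) (hφ : Measurable φ) (k : ℕ)
    (hk : ∀ s : ℝ, 0 < s → ∀ x, φ (s • x) = ENNReal.ofReal (s ^ k) * φ x) :
    ∫⁻ x, φ x * ENNReal.ofReal (Real.exp (-(p x)))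
      = ENNReal.ofReal ((Module.finrank ℝ E + k).factorial : ℝ)
        * ∫⁻ x in {x : E | p x ≤ 1}, φ x := by
  set d := Module.finrank ℝ E with hd
  let A : Set (E × ℝ) := {q | p q.1 ≤ q.2}
  have hA : MeasurableSet A :=
    (isClosed_le (hp.comp continuous_fst) continuous_snd).measurableSet
  let F : E × ℝ → ℝ≥0∞ := A.indicator fun q => φ q.1 * ENNReal.ofReal (Real.exp (-q.2))
  have hF : Measurable F := by
    refine Measurable.indicator ?_ hA
    exact (hφ.comp measurable_fst).mul
      (ENNReal.measurable_ofReal.comp (Real.measurable_exp.comp measurable_snd.neg))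
  have e1 : ∀ x, φ x * ENNReal.ofReal (Real.exp (-(p x))) = ∫⁻ s in Ioi (0 : ℝ), F (x, s) := by
    intro x
    rw [← lint_exp (p x), ← lintegral_const_mul _ (by fun_prop)]
    have hpx : 0 ≤ p x := apply_nonneg p x
    rw [← lintegral_indicator measurableSet_Ici, ← lintegral_indicator measurableSet_Ioi]
    have hne : ∀ᵐ s : ℝ, s ≠ 0 := by
      have := (measure_singleton (μ := (volume : Measure ℝ)) (0 : ℝ))
      exact compl_mem_ae_iff.mpr this
    refine lintegral_congr_ae ?_
    filter_upwards [hne] with s hs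
    by_cases h : p x ≤ s
    · have h0 : (0 : ℝ) < s := lt_of_le_of_ne (hpx.trans h) (Ne.symm hs)
      rw [indicator_of_mem (show s ∈ Ici (p x) from h), indicator_of_mem (show s ∈ Ioi (0:ℝ) from h0)]
      show _ = A.indicator _ (x, s)
      rw [indicator_of_mem (show (x, s) ∈ A from h)]
    · rw [indicator_of_notMem (show s ∉ Ici (p x) from h)]
      symm
      by_cases h0 : (0 : ℝ) < s
      · rw [indicator_of_mem (show s ∈ Ioi (0:ℝ) from h0)]
        show A.indicator _ (x, s) = 0
        rw [indicator_of_notMem (show (x, s) ∉ A from h)]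
      · rw [indicator_of_notMem (show s ∉ Ioi (0:ℝ) from h0)]
  simp only [e1]
  have hswap := lintegral_lintegral_swap (μ := (volume : Measure E))
    (ν := (volume : Measure ℝ).restrict (Ioi 0)) (f := fun x s => F (x, s)) hF.aemeasurable
  rw [hswap]
  have e2 : ∀ s ∈ Ioi (0 : ℝ), ∫⁻ x, F (x, s)
      = ENNReal.ofReal (Real.exp (-s)) * ENNReal.ofReal (s ^ (d + k))
        * ∫⁻ x in {x : E | p x ≤ 1}, φ x := by
    intro s hs
    have hs0 : (0 : ℝ) < s := hs
    have hm1 : MeasurableSet {x : E | p x ≤ 1} := (isClosed_le hp continuous_const).measurableSet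
    have hms : MeasurableSet {x : E | p x ≤ s} := (isClosed_le hp continuous_const).measurableSet
    have h1 : (fun x => F (x, s))
        = fun x => ENNReal.ofReal (Real.exp (-s)) * {x : E | p x ≤ s}.indicator φ x := by
      funext x
      show A.indicator _ (x, s) = _
      by_cases h : p x ≤ s
      · rw [indicator_of_mem (show (x, s) ∈ A from h), indicator_of_mem (show x ∈ {x : E | p x ≤ s} from h),
          mul_comm]
      · rw [indicator_of_notMem (show (x, s) ∉ A from h),
          indicator_of_notMem (show x ∉ {x : E | p x ≤ s} from h), mul_zero]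
    rw [h1, lintegral_const_mul _ (hφ.indicator hms)]
    have h2 := lint_smul ({x : E | p x ≤ s}.indicator φ) (hφ.indicator hms) s hs0
    have h3 : ∀ x : E, {x : E | p x ≤ s}.indicator φ (s • x)
        = ENNReal.ofReal (s ^ k) * {x : E | p x ≤ 1}.indicator φ x := by
      intro x
      have hps : p (s • x) = s * p x := by
        rw [map_smul_eq_mul, Real.norm_of_nonneg hs0.le]
      by_cases h : p x ≤ 1
      · rw [indicator_of_mem (show x ∈ {x : E | p x ≤ 1} from h), indicator_of_mem, hk s hs0]
        show p (s • x) ≤ s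
        rw [hps]; nlinarith
      · rw [indicator_of_notMem (show x ∉ {x : E | p x ≤ 1} from h), indicator_of_notMem, mul_zero]
        intro h'
        apply h
        have h'' : p (s • x) ≤ s := h'
        rw [hps] at h''
        exact le_of_mul_le_mul_left (by linarith) hs0
    simp only [h3] at h2
    rw [lintegral_const_mul _ (hφ.indicator hm1), lintegral_indicator hm1] at h2
    have h4 : ENNReal.ofReal (s ^ d) * ENNReal.ofReal ((s ^ d)⁻¹) = 1 := by
      rw [← ENNReal.ofReal_mul (by positivity), mul_inv_cancel₀ (by positivity), ENNReal.ofReal_one]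
    have h5 : ∫⁻ x, {x : E | p x ≤ s}.indicator φ x
        = ENNReal.ofReal (s ^ d) * (ENNReal.ofReal (s ^ k) * ∫⁻ x in {x : E | p x ≤ 1}, φ x) := by
      rw [h2, ← mul_assoc, h4, one_mul]
    rw [h5, pow_add, ENNReal.ofReal_mul (by positivity)]
    ring
  rw [setLIntegral_congr_fun measurableSet_Ioi e2, lintegral_mul_const _ (by fun_prop), lint_gamma]

end Pool.Agent.TH591.Sm
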