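import Mathlib

set_option autoImplicit false

/-!
# Second differences of a seminorm, averaged over an even log-concave density
-/

namespace Pool.Agent.TH591.Sm

open MeasureTheory Set
open scoped ENNReal NNReal

set_option linter.unusedSectionVars false

variable {F : Type*} [NormedAddCommGroup F] [NormedSpace ℝ F] [FiniteDimensional ℝ F]
  [MeasurableSpace F] [BorelSpace F]

/-- the second difference of `η` -/
def sd (η : F → ℝ) (y v : F) : ℝ := η (y + v) + η (y - v) - 2 * η y

theorem sd_nonneg (η : Seminorm ℝ F) (y v : F) : 0 ≤ sd η y v := by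
  unfold sd
  have h1 : η (y + v + (y - v)) ≤ η (y + v) + η (y - v) := map_add_le_add η _ _
  have h2 : y + v + (y - v) = (2 : ℝ) • y := by rw [two_smul]; abel
  rw [h2, map_smul_eq_mul, Real.norm_of_nonneg (by norm_num)] at h1
  linarith

theorem sd_le (η : Seminorm ℝ F) (y v : F) : sd η y v ≤ 2 * η v := by
  unfold sd
  have h1 : η (y + v) ≤ η y + η v := map_add_le_add η _ _
  have h2 : η (y - v) ≤ η y + η v := map_sub_le_add η _ _
  linarith

/-- scaling: `λ sd (y, v) ≤ sd (λ y, v)` for `0 < λ ≤ 1` -/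
theorem sd_scale (η : Seminorm ℝ F) (l : ℝ) (hl0 : 0 < l) (hl1 : l ≤ 1) (y v : F) :
    l * sd η y v ≤ sd η (l • y) v := by
  unfold sd
  have e1 : l * η (y + v) = η (l • y + l • v) := by
    rw [← smul_add, map_smul_eq_mul, Real.norm_of_nonneg hl0.le]
  have e2 : l * η (y - v) = η (l • y - l • v) := by
    rw [← smul_sub, map_smul_eq_mul, Real.norm_of_nonneg hl0.le]
  have e3 : l * η y = η (l • y) := by
    rw [map_smul_eq_mul, Real.norm_of_nonneg hl0.le]
  have c1 : l • y + l • v = ((1 + l) / 2) • (l • y + v) + ((1 - l) / 2) • (l • y - v) := by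
    module
  have c2 : l • y - l • v = ((1 - l) / 2) • (l • y + v) + ((1 + l) / 2) • (l • y - v) := by
    module
  have h1 : η (l • y + l • v) ≤ (1 + l) / 2 * η (l • y + v) + (1 - l) / 2 * η (l • y - v) := by
    rw [c1]
    refine (map_add_le_add η _ _).trans (le_of_eq ?_)
    rw [map_smul_eq_mul, map_smul_eq_mul, Real.norm_of_nonneg (by linarith),
      Real.norm_of_nonneg (by linarith)]
  have h2 : η (l • y - l • v) ≤ (1 - l) / 2 * η (l • y + v) + (1 + l) / 2 * η (l • y - v) := by
    rw [c2]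
    refine (map_add_le_add η _ _).trans (le_of_eq ?_)
    rw [map_smul_eq_mul, map_smul_eq_mul, Real.norm_of_nonneg (by linarith),
      Real.norm_of_nonneg (by linarith)]
  have : l * (η (y + v) + η (y - v) - 2 * η y)
      = η (l • y + l • v) + η (l • y - l • v) - 2 * η (l • y) := by
    rw [← e1, ← e2, ← e3]; ring
  rw [this]
  linarith

/-- A positive even log-concave function with finite first moment. -/
structure Dens (μ : Measure F) (r : F → ℝ) : Prop where
  meas : Measurable r
  pos : ∀ y, 0 < r y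
  even : ∀ y, r (-y) = r y
  logc : ∀ a b : F, ∀ s : ℝ, 0 < s → s < 1 →
    r a ^ s * r b ^ (1 - s) ≤ r (s • a + (1 - s) • b)
  int : Integrable r μ
  mom : ∀ η : Seminorm ℝ F, Integrable (fun y => r y * η y) μ

variable {μ : Measure F} [μ.IsAddHaarMeasure] {r : F → ℝ}

theorem Dens.le_zero (h : Dens μ r) (y : F) : r y ≤ r 0 := by
  have h1 := h.logc y (-y) (1 / 2) (by norm_num) (by norm_num)
  rw [h.even y] at h1
  have h2 : (1 / 2 : ℝ) • y + (1 - 1 / 2 : ℝ) • (-y) = 0 := by module
  rw [h2, ← Real.rpow_add (h.pos y)] at h1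
  norm_num at h1
  exact h1

/-- the value at a shifted point -/
theorem Dens.shift (h : Dens μ r) (y v : F) (s t : ℝ) (hs : 0 ≤ s) (hst : s ≤ t) (ht : t < 1) :
    r y * (r v / r 0) ^ t ≤ r ((1 - s) • y - s • v) := by
  have hr0 := h.pos 0
  have hq0 : 0 < r v / r 0 := div_pos (h.pos v) hr0
  have hq1 : r v / r 0 ≤ 1 := (div_le_one hr0).2 (h.le_zero v)
  rcases eq_or_lt_of_le hs with rfl | hs0
  · have h1 : (r v / r 0) ^ t ≤ 1 := Real.rpow_le_one hq0.le hq1 hst
    have h2 : (1 - (0 : ℝ)) • y - (0 : ℝ) • v = y := by module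
    rw [h2]
    calc r y * (r v / r 0) ^ t ≤ r y * 1 := mul_le_mul_of_nonneg_left h1 (h.pos y).le
      _ = r y := mul_one _
  · have h1 := h.logc (-v) y s hs0 (by linarith)
    rw [h.even v] at h1
    have h2 : s • (-v) + (1 - s) • y = (1 - s) • y - s • v := by module
    rw [h2] at h1
    refine le_trans ?_ h1
    have h3 : (r v / r 0) ^ t ≤ (r v / r 0) ^ s :=
      Real.rpow_le_rpow_of_exponent_ge hq0 hq1 hst
    have h4 : (r v / r 0) ^ s ≤ (r v / r y) ^ s := by
      refine Real.rpow_le_rpow hq0.le ?_ hs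
      exact div_le_div_of_nonneg_left (h.pos v).le (h.pos y) (h.le_zero y)
    calc r y * (r v / r 0) ^ t ≤ r y * (r v / r y) ^ s :=
          mul_le_mul_of_nonneg_left (h3.trans h4) (h.pos y).le
      _ = r v ^ s * r y ^ (1 - s) := by
          rw [Real.div_rpow (h.pos v).le (h.pos y).le, Real.rpow_sub (h.pos y), Real.rpow_one]
          field_simp

/-- integrability of `r` times a translate of the seminorm -/
theorem Dens.int_shift (h : Dens μ r) (η : Seminorm ℝ F) (hη : Continuous η) (w : F) :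
    Integrable (fun y => r y * η (y + w)) μ := by
  have h1 : Integrable (fun y => r y * η y + r y * η w) μ := (h.mom η).add (h.int.mul_const _)
  refine h1.mono' (h.meas.mul (hη.measurable.comp (measurable_id.add_const w))).aestronglyMeasurable
    (Filter.Eventually.of_forall fun y => ?_)
  rw [Real.norm_of_nonneg (mul_nonneg (h.pos y).le (apply_nonneg η _)), ← mul_add]
  exact mul_le_mul_of_nonneg_left (map_add_le_add η _ _) (h.pos y).le

/-- `B s = ∫ r(y) η(y + s v)` -/
noncomputable def Bf (μ : Measure F) (r : F → ℝ) (η : F → ℝ) (v : F) (s : ℝ) : ℝ :=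
  ∫ y, r y * η (y + s • v) ∂μ

theorem Dens.B_even (h : Dens μ r) (η : Seminorm ℝ F) (v : F) (s : ℝ) :
    Bf μ r η v (-s) = Bf μ r η v s := by
  unfold Bf
  rw [← integral_neg_eq_self (fun y => r y * η (y + -s • v)) μ]
  congr 1
  funext y
  rw [h.even y]
  congr 1
  rw [show -y + -s • v = -(y + s • v) by module, map_neg_eq_map]

theorem Dens.B_le (h : Dens μ r) (η : Seminorm ℝ F) (hη : Continuous η) (v : F) (t : ℝ)
    (ht : 0 ≤ t) :
    Bf μ r η v t - Bf μ r η v 0 ≤ t * η v * ∫ y, r y ∂μ := by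
  unfold Bf
  rw [← integral_sub (h.int_shift η hη _) (h.int_shift η hη _), ← integral_const_mul]
  refine integral_mono ((h.int_shift η hη _).sub (h.int_shift η hη _)) (h.int.const_mul _)
    fun y => ?_
  have h1 : η (y + t • v) ≤ η (y + (0 : ℝ) • v) + t * η v := by
    have h2 : y + t • v = (y + (0 : ℝ) • v) + t • v := by module
    rw [h2]
    refine (map_add_le_add η _ _).trans (le_of_eq ?_)
    rw [map_smul_eq_mul, Real.norm_of_nonneg ht]
  have h3 := mul_le_mul_of_nonneg_left h1 (h.pos y).le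
  simp only
  linarith

/-- the second difference of `B` at `s` -/
theorem Dens.B_sd (h : Dens μ r) (η : Seminorm ℝ F) (hη : Continuous η) (v : F) (s δ t : ℝ)
    (hs : 0 ≤ s) (hst : s ≤ t) (ht : t < 1) :
    (1 - t) ^ (Module.finrank ℝ F + 1) * (r v / r 0) ^ t * (∫ y, r y * sd η y (δ • v) ∂μ)
      ≤ Bf μ r η v (s + δ) + Bf μ r η v (s - δ) - 2 * Bf μ r η v s := by
  set d := Module.finrank ℝ F with hd
  have hl0 : 0 < 1 - s := by linarith
  have hl1 : 1 - s ≤ 1 := by linarith
  have hsdi : ∀ u : F, Integrable (fun w => r w * sd η (w + s • v) u) μ := by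
    intro u
    unfold sd
    have e : (fun w => r w * (η (w + s • v + u) + η (w + s • v - u) - 2 * η (w + s • v)))
        = fun w => r w * η (w + (s • v + u)) + r w * η (w + (s • v - u))
          - 2 * (r w * η (w + s • v)) := by
      funext w
      rw [show w + s • v + u = w + (s • v + u) by module,
        show w + s • v - u = w + (s • v - u) by module]
      ring
    rw [e]
    exact ((h.int_shift η hη _).add (h.int_shift η hη _)).sub ((h.int_shift η hη _).const_mul 2)
  have e1 : Bf μ r η v (s + δ) + Bf μ r η v (s - δ) - 2 * Bf μ r η v s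
      = ∫ w, r w * sd η (w + s • v) (δ • v) ∂μ := by
    unfold Bf
    have i1 := h.int_shift η hη ((s + δ) • v)
    have i2 := h.int_shift η hη ((s - δ) • v)
    have i3 := (h.int_shift η hη (s • v)).const_mul 2
    have i4 : Integrable (fun w => r w * η (w + (s + δ) • v) + r w * η (w + (s - δ) • v)) μ :=
      i1.add i2
    rw [← integral_add i1 i2, ← integral_const_mul, ← integral_sub i4 i3]
    congr 1
    funext w
    unfold sd
    rw [show w + s • v + δ • v = w + (s + δ) • v by module,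
      show w + s • v - δ • v = w + (s - δ) • v by module]
    ring
  have e2 : ∫ w, r w * sd η (w + s • v) (δ • v) ∂μ
      = (1 - s) ^ d * ∫ y, r ((1 - s) • y - s • v) * sd η ((1 - s) • y) (δ • v) ∂μ := by
    have h1 := Measure.integral_comp_smul μ
      (fun w => r (w - s • v) * sd η w (δ • v)) (1 - s)
    rw [h1]
    have h2 := integral_sub_right_eq_self (μ := μ) (fun w => r w * sd η (w + s • v) (δ • v)) (s • v)
    simp only [sub_add_cancel] at h2
    rw [h2, smul_eq_mul, abs_of_pos (by positivity)]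
    rw [← mul_assoc, mul_inv_cancel₀ (by positivity), one_mul]
  have hint2 : Integrable (fun y => r ((1 - s) • y - s • v) * sd η ((1 - s) • y) (δ • v)) μ := by
    have h3 : Integrable (fun w => r (w - s • v) * sd η w (δ • v)) μ := by
      have h4 := (hsdi (δ • v)).comp_sub_right (s • v)
      simpa only [sub_add_cancel] using h4
    exact h3.comp_smul hl0.ne'
  have hint3 : Integrable (fun y => r y * sd η y (δ • v)) μ := by
    have h4 := h.int_shift η hη (δ • v)
    have h5 := h.int_shift η hη (-(δ • v))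
    have h6 := h.mom η
    have e : (fun y => r y * sd η y (δ • v))
        = fun y => r y * η (y + δ • v) + r y * η (y + -(δ • v)) - 2 * (r y * η y) := by
      funext y
      unfold sd
      rw [sub_eq_add_neg y]
      ring
    rw [e]
    exact (h4.add h5).sub (h6.const_mul 2)
  rw [e1, e2]
  have hrt : 0 ≤ (r v / r 0) ^ t := Real.rpow_nonneg (div_pos (h.pos v) (h.pos 0)).le _
  have hpt : ∀ y, (1 - s) * ((r v / r 0) ^ t * (r y * sd η y (δ • v)))
      ≤ r ((1 - s) • y - s • v) * sd η ((1 - s) • y) (δ • v) := by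
    intro y
    have a1 := h.shift y v s t hs hst ht
    have a2 := sd_scale η (1 - s) hl0 hl1 y (δ • v)
    have a3 := sd_nonneg η y (δ • v)
    calc (1 - s) * ((r v / r 0) ^ t * (r y * sd η y (δ • v)))
        = (r y * (r v / r 0) ^ t) * ((1 - s) * sd η y (δ • v)) := by ring
      _ ≤ r ((1 - s) • y - s • v) * sd η ((1 - s) • y) (δ • v) :=
          mul_le_mul a1 a2 (mul_nonneg hl0.le a3) (h.pos _).le
  have hI0 : 0 ≤ ∫ y, r y * sd η y (δ • v) ∂μ :=
    integral_nonneg fun y => mul_nonneg (h.pos y).le (sd_nonneg η _ _)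
  calc (1 - t) ^ (d + 1) * (r v / r 0) ^ t * (∫ y, r y * sd η y (δ • v) ∂μ)
      ≤ (1 - s) ^ (d + 1) * (r v / r 0) ^ t * (∫ y, r y * sd η y (δ • v) ∂μ) := by
        refine mul_le_mul_of_nonneg_right (mul_le_mul_of_nonneg_right ?_ hrt) hI0
        exact pow_le_pow_left₀ (by linarith) (by linarith) _
    _ = (1 - s) ^ d * ∫ y, (1 - s) * ((r v / r 0) ^ t * (r y * sd η y (δ • v))) ∂μ := by
        rw [integral_const_mul, integral_const_mul]; ring
    _ ≤ (1 - s) ^ d * ∫ y, r ((1 - s) • y - s • v) * sd η ((1 - s) • y) (δ • v) ∂μ := by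
        refine mul_le_mul_of_nonneg_left ?_ (by positivity)
        exact integral_mono ((hint3.const_mul _).const_mul _) hint2 hpt

/-- summing second differences -/
theorem telescope (b : ℕ → ℝ) (a c : ℝ) (ha : 0 ≤ a) (hc : c ≤ 1) (N : ℕ)
    (h0 : a = 2 * (b 1 - b 0))
    (h : ∀ i, i + 1 < N → c * a ≤ b (i + 2) + b i - 2 * b (i + 1)) :
    c * a * (N : ℝ) ^ 2 / 2 ≤ b N - b 0 := by
  have hca : c * a ≤ a := by nlinarith
  have key : ∀ i : ℕ, i + 1 ≤ N → c * a * (i : ℝ) ^ 2 / 2 ≤ b i - b 0 ∧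
      c * a * ((i : ℝ) + 1 / 2) ≤ b (i + 1) - b i := by
    intro i
    induction i with
    | zero =>
      intro _
      constructor
      · simp
      · push_cast
        simp only [zero_add]
        linarith
    | succ i ih =>
      intro hi
      obtain ⟨h1, h2⟩ := ih (by omega)
      have h3 := h i (by omega)
      constructor
      · push_cast
        have e : c * a * ((i : ℝ) + 1) ^ 2 / 2 = c * a * (i : ℝ) ^ 2 / 2 + c * a * ((i : ℝ) + 1 / 2) := by
          ring
        rw [e]
        linarith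
      · push_cast
        have e : c * a * ((i : ℝ) + 1 + 1 / 2) = c * a * ((i : ℝ) + 1 / 2) + c * a := by ring
        rw [e]
        linarith
  rcases Nat.eq_zero_or_pos N with rfl | hN
  · simp
  · obtain ⟨M, rfl⟩ : ∃ M, N = M + 1 := ⟨N - 1, by omega⟩
    obtain ⟨h1, h2⟩ := key M le_rfl
    push_cast
    have e : c * a * ((M : ℝ) + 1) ^ 2 / 2 = c * a * (M : ℝ) ^ 2 / 2 + c * a * ((M : ℝ) + 1 / 2) := by
      ring
    rw [e]
    linarith

/-- The averaged second difference at a small scale. -/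
theorem Dens.piece (h : Dens μ r) (η : Seminorm ℝ F) (hη : Continuous η) (v : F) (t : ℝ)
    (ht0 : 0 < t) (ht : t < 1) (N : ℕ) (hN : 0 < N) :
    (1 - t) ^ (Module.finrank ℝ F + 1) * (r v / r 0) ^ t *
      (∫ y, r y * sd η y ((t / N) • v) ∂μ) * (N : ℝ) ^ 2 / 2 ≤ t * η v * ∫ y, r y ∂μ := by
  set d := Module.finrank ℝ F with hd
  set δ : ℝ := t / N with hδ
  have hN' : (0 : ℝ) < N := by exact_mod_cast hN
  have hδ0 : 0 < δ := div_pos ht0 hN'
  set a : ℝ := ∫ y, r y * sd η y (δ • v) ∂μ with ha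
  have ha0 : 0 ≤ a := integral_nonneg fun y => mul_nonneg (h.pos y).le (sd_nonneg η _ _)
  have hq0 : 0 < r v / r 0 := div_pos (h.pos v) (h.pos 0)
  have hq1 : r v / r 0 ≤ 1 := (div_le_one (h.pos 0)).2 (h.le_zero v)
  have hc : (1 - t) ^ (d + 1) * (r v / r 0) ^ t ≤ 1 := by
    have h1 : (1 - t) ^ (d + 1) ≤ 1 := pow_le_one₀ (by linarith) (by linarith)
    have h2 : (r v / r 0) ^ t ≤ 1 := Real.rpow_le_one hq0.le hq1 ht0.le
    have h3 : 0 ≤ (r v / r 0) ^ t := Real.rpow_nonneg hq0.le _
    have h4 : 0 ≤ (1 - t) ^ (d + 1) := by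
      have : 0 < 1 - t := by linarith
      positivity
    nlinarith
  have hint : Integrable (fun y => r y * η (y + δ • v)) μ := h.int_shift η hη _
  have h0 : a = 2 * (Bf μ r η v ((1 : ℕ) * δ) - Bf μ r η v ((0 : ℕ) * δ)) := by
    have e1 := h.B_even η v δ
    have i1 := h.int_shift η hη (δ • v)
    have i2 := h.int_shift η hη (-δ • v)
    have i3 := (h.int_shift η hη ((0 : ℝ) • v)).const_mul 2
    have i4 : Integrable (fun w => r w * η (w + δ • v) + r w * η (w + -δ • v)) μ := i1.add i2
    have e2 : a = Bf μ r η v δ + Bf μ r η v (-δ) - 2 * Bf μ r η v 0 := by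
      unfold Bf
      rw [← integral_add i1 i2, ← integral_const_mul, ← integral_sub i4 i3, ha]
      congr 1
      funext w
      unfold sd
      rw [show w - δ • v = w + -δ • v by module, show w + (0 : ℝ) • v = w by module]
      ring
    rw [e2, e1]
    push_cast
    rw [one_mul, zero_mul]
    ring
  have h1 := telescope (fun i => Bf μ r η v (i * δ)) a _ ha0 hc N h0 (by
    intro i hi
    have hi' : ((i : ℝ) + 1) * δ ≤ t := by
      have h2 : (i : ℝ) + 1 ≤ N := by exact_mod_cast hi.le
      calc ((i : ℝ) + 1) * δ ≤ N * δ := mul_le_mul_of_nonneg_right h2 hδ0.le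
        _ = t := by rw [hδ]; field_simp
    have h3 := h.B_sd η hη v (((i : ℝ) + 1) * δ) δ t (by positivity) hi' ht
    rw [← ha, ← hd] at h3
    refine h3.trans (le_of_eq ?_)
    push_cast
    rw [show ((i : ℝ) + 1) * δ + δ = ((i : ℝ) + 2) * δ by ring,
      show ((i : ℝ) + 1) * δ - δ = (i : ℝ) * δ by ring])
  refine h1.trans ?_
  have h4 := h.B_le η hη v t ht0.le
  have e : (N : ℝ) * δ = t := by rw [hδ]; field_simp
  simp only [e]
  push_cast
  rw [zero_mul]
  exact h4

/-- The average over the direction `v`. -/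
theorem Dens.avg (h : Dens μ r) (η : Seminorm ℝ F) (hη : Continuous η) (t : ℝ)
    (ht0 : 0 < t) (ht : t < 1) (N : ℕ) (hN : 0 < N) :
    ∫⁻ v, ENNReal.ofReal (r v * ∫ y, r y * sd η y ((t / N) • v) ∂μ) ∂μ
      ≤ ENNReal.ofReal (2 * t / ((N : ℝ) ^ 2 * (1 - t) ^ (2 * Module.finrank ℝ F + 2)) *
        (∫ y, r y ∂μ) * ∫ y, r y * η y ∂μ) := by
  set d := Module.finrank ℝ F with hd
  have hN' : (0 : ℝ) < N := by exact_mod_cast hN
  have h1t : 0 < 1 - t := by linarith
  set R : ℝ := ∫ y, r y ∂μ with hR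
  have hR0 : 0 ≤ R := integral_nonneg fun y => (h.pos y).le
  set C : ℝ := 2 * t / ((N : ℝ) ^ 2 * (1 - t) ^ (d + 1)) * R with hC
  have hC0 : 0 ≤ C := by positivity
  let g : F → ℝ := fun v => C * (r ((1 - t) • v) * η v)
  have hmom := h.mom η
  have hgi : Integrable g μ := by
    have h1 : Integrable (fun v => (1 - t)⁻¹ * (r ((1 - t) • v) * η ((1 - t) • v))) μ :=
      (hmom.comp_smul h1t.ne').const_mul _
    have h2 : (fun v => (1 - t)⁻¹ * (r ((1 - t) • v) * η ((1 - t) • v)))
        = fun v => r ((1 - t) • v) * η v := by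
      funext v
      rw [map_smul_eq_mul, Real.norm_of_nonneg h1t.le]
      field_simp
    rw [h2] at h1
    exact h1.const_mul C
  have hgint : ∫ v, g v ∂μ = C * ((1 - t) ^ (d + 1))⁻¹ * ∫ y, r y * η y ∂μ := by
    show ∫ v, C * (r ((1 - t) • v) * η v) ∂μ = _
    rw [integral_const_mul]
    have h1 := Measure.integral_comp_smul μ (fun w => r w * η w) (1 - t)
    have h2 : ∀ v : F, r ((1 - t) • v) * η v
        = (1 - t)⁻¹ * (r ((1 - t) • v) * η ((1 - t) • v)) := by
      intro v
      rw [map_smul_eq_mul, Real.norm_of_nonneg h1t.le]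
      field_simp
    simp only [h2]
    rw [integral_const_mul, h1, smul_eq_mul, abs_of_pos (by positivity), ← hd, pow_succ]
    field_simp
  have hle : ∀ v, r v * (∫ y, r y * sd η y ((t / N) • v) ∂μ) ≤ g v := by
    intro v
    set a : ℝ := ∫ y, r y * sd η y ((t / N) • v) ∂μ with ha
    have h1 := h.piece η hη v t ht0 ht N hN
    rw [← ha, ← hd, ← hR] at h1
    have hq0 : 0 < r v / r 0 := div_pos (h.pos v) (h.pos 0)
    have hqt : 0 < (r v / r 0) ^ t := Real.rpow_pos_of_pos hq0 _
    have h2 : r v / (r v / r 0) ^ t ≤ r ((1 - t) • v) := by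
      have h3 := h.logc 0 v t ht0 ht
      rw [smul_zero, zero_add] at h3
      refine le_trans (le_of_eq ?_) h3
      rw [Real.div_rpow (h.pos v).le (h.pos 0).le, Real.rpow_sub (h.pos v), Real.rpow_one]
      have := Real.rpow_pos_of_pos (h.pos v) t
      have := Real.rpow_pos_of_pos (h.pos 0) t
      field_simp
    have h4 : a ≤ 2 * t / ((N : ℝ) ^ 2 * (1 - t) ^ (d + 1)) * R * η v / (r v / r 0) ^ t := by
      rw [le_div_iff₀ hqt]
      have e : 2 * t / ((N : ℝ) ^ 2 * (1 - t) ^ (d + 1)) * R * η v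
          = (t * η v * R) * (2 / ((N : ℝ) ^ 2 * (1 - t) ^ (d + 1))) := by
        field_simp
      rw [e]
      have e2 : a * (r v / r 0) ^ t = ((1 - t) ^ (d + 1) * (r v / r 0) ^ t * a * (N : ℝ) ^ 2 / 2)
          * (2 / ((N : ℝ) ^ 2 * (1 - t) ^ (d + 1))) := by
        field_simp
      rw [e2]
      exact mul_le_mul_of_nonneg_right h1 (by positivity)
    calc r v * a ≤ r v * (2 * t / ((N : ℝ) ^ 2 * (1 - t) ^ (d + 1)) * R * η v / (r v / r 0) ^ t) :=
          mul_le_mul_of_nonneg_left h4 (h.pos v).le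
      _ = C * η v * (r v / (r v / r 0) ^ t) := by rw [hC]; ring
      _ ≤ C * η v * r ((1 - t) • v) :=
          mul_le_mul_of_nonneg_left h2 (mul_nonneg hC0 (apply_nonneg η v))
      _ = g v := by show _ = C * (r ((1 - t) • v) * η v); ring
  calc ∫⁻ v, ENNReal.ofReal (r v * ∫ y, r y * sd η y ((t / N) • v) ∂μ) ∂μ
      ≤ ∫⁻ v, ENNReal.ofReal (g v) ∂μ := lintegral_mono fun v => ENNReal.ofReal_le_ofReal (hle v)
    _ = ENNReal.ofReal (∫ v, g v ∂μ) := by
        rw [ofReal_integral_eq_lintegral_ofReal hgi]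
        exact Filter.Eventually.of_forall fun v =>
          mul_nonneg hC0 (mul_nonneg (h.pos _).le (apply_nonneg η v))
    _ = _ := by
        rw [hgint, hC]
        congr 1
        rw [show 2 * d + 2 = (d + 1) + (d + 1) by ring, pow_add]
        field_simp
        ring

end Pool.Agent.TH591.Sm
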