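import Mathlib
import Pool.Agent.TH264.MP.PL
import Pool.Agent.TH591.Sm.Piece
import Pool.Agent.TH591.Sm.Layer

set_option autoImplicit false
set_option linter.unusedSectionVars false

/-!
# Marginals of `exp (-p)`
-/

namespace Pool.Agent.TH591.Sm

open MeasureTheory Set
open scoped ENNReal NNReal

variable {E : Type*} [NormedAddCommGroup E] [InnerProductSpace ℝ E] [FiniteDimensional ℝ E]
  [MeasurableSpace E] [BorelSpace E] {a b : ℕ}

/-- `exp (-p)` -/
noncomputable def ex (p : Seminorm ℝ E) (x : E) : ℝ≥0∞ := ENNReal.ofReal (Real.exp (-(p x)))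

theorem ex_meas (p : Seminorm ℝ E) (hp : Continuous p) : Measurable (ex p) := by
  unfold ex
  exact (Real.measurable_exp.comp hp.measurable.neg).ennreal_ofReal

theorem ex_pos (p : Seminorm ℝ E) (x : E) : 0 < ex p x := by
  unfold ex; rw [ENNReal.ofReal_pos]; exact Real.exp_pos _

theorem ex_logc (p : Seminorm ℝ E) (x y : E) (s : ℝ) (hs : 0 < s) (hs1 : s < 1) :
    ex p x ^ s * ex p y ^ (1 - s) ≤ ex p (s • x + (1 - s) • y) := by
  unfold ex
  rw [ENNReal.ofReal_rpow_of_pos (Real.exp_pos _), ENNReal.ofReal_rpow_of_pos (Real.exp_pos _),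
    ← ENNReal.ofReal_mul (by positivity)]
  apply ENNReal.ofReal_le_ofReal
  rw [← Real.exp_mul, ← Real.exp_mul, ← Real.exp_add]
  apply Real.exp_le_exp.2
  have h1 : p (s • x + (1 - s) • y) ≤ s * p x + (1 - s) * p y := by
    refine (map_add_le_add p _ _).trans (le_of_eq ?_)
    rw [map_smul_eq_mul, map_smul_eq_mul, Real.norm_of_nonneg hs.le,
      Real.norm_of_nonneg (by linarith)]
  linarith

/-- the marginal -/
noncomputable def rho (p : Seminorm ℝ E) (L : ((Fin a → ℝ) × (Fin b → ℝ)) ≃ₗ[ℝ] E)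
    (y : Fin a → ℝ) : ℝ≥0∞ := ∫⁻ k : Fin b → ℝ, ex p (L (y, k))

variable (p : Seminorm ℝ E) (hp : Continuous p) (L : ((Fin a → ℝ) × (Fin b → ℝ)) ≃ₗ[ℝ] E)

theorem L_cont : Continuous L := L.toLinearMap.continuous_of_finiteDimensional

theorem exL_meas (hp : Continuous p) : Measurable fun q : (Fin a → ℝ) × (Fin b → ℝ) => ex p (L q) :=
  (ex_meas p hp).comp (L_cont L).measurable

theorem rho_meas (hp : Continuous p) : Measurable (rho p L) := (exL_meas p L hp).lintegral_prod_right'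

theorem rho_pos (hp : Continuous p) (y : Fin a → ℝ) : 0 < rho p L y := by
  unfold rho
  have hm : Measurable fun k : Fin b → ℝ => ex p (L (y, k)) :=
    (exL_meas p L hp).comp measurable_prodMk_left
  rw [lintegral_pos_iff_support hm]
  have h1 : (Function.support fun k : Fin b → ℝ => ex p (L (y, k))) = univ := by
    ext k
    simp only [Function.mem_support, mem_univ, iff_true]
    exact (ex_pos p _).ne'
  rw [h1]
  exact Measure.measure_univ_pos.2 (NeZero.ne _)

theorem rho_even (y : Fin a → ℝ) : rho p L (-y) = rho p L y := by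
  unfold rho
  rw [← lintegral_neg_eq_self]
  refine lintegral_congr fun k => ?_
  unfold ex
  rw [show ((-y, -k) : (Fin a → ℝ) × (Fin b → ℝ)) = -(y, k) by simp, map_neg, map_neg_eq_map]

theorem rho_logc (hp : Continuous p) (u v : Fin a → ℝ) (s : ℝ) (hs : 0 < s) (hs1 : s < 1) :
    rho p L u ^ s * rho p L v ^ (1 - s) ≤ rho p L (s • u + (1 - s) • v) := by
  unfold rho
  have hm : ∀ y : Fin a → ℝ, Measurable fun k : Fin b → ℝ => ex p (L (y, k)) := fun y =>
    (exL_meas p L hp).comp measurable_prodMk_left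
  refine Pool.Agent.TH264.MP.pl b s hs hs1 _ _ _ (hm u) (hm v) (hm _) fun k l => ?_
  have h := ex_logc p (L (u, k)) (L (v, l)) s hs hs1
  rw [← map_smul, ← map_smul, ← map_add] at h
  simpa using h

theorem vol_le_one (c : ℝ) (hc : 0 < c) (hcp : ∀ x, c * ‖x‖ ≤ p x) :
    volume {x : E | p x ≤ 1} < ⊤ := by
  refine lt_of_le_of_lt (measure_mono ?_) (measure_closedBall_lt_top (x := (0 : E)) (r := 1 / c))
  intro x hx
  rw [mem_closedBall_zero_iff, le_div_iff₀ hc, mul_comm]
  exact (hcp x).trans hx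

theorem ex_fin (hp : Continuous p) (c : ℝ) (hc : 0 < c) (hcp : ∀ x, c * ‖x‖ ≤ p x) :
    ∫⁻ x, ex p x ≠ ⊤ := by
  have h := layer p hp (fun _ => 1) measurable_const 0 (fun s _ x => by simp)
  simp only [one_mul] at h
  unfold ex
  rw [h, setLIntegral_one]
  exact ENNReal.mul_ne_top ENNReal.ofReal_ne_top (vol_le_one p c hc hcp).ne

theorem ex_mom (hp : Continuous p) :
    ∫⁻ x, ENNReal.ofReal (p x) * ex p x
      ≤ ENNReal.ofReal (Module.finrank ℝ E + 1) * ∫⁻ x, ex p x := by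
  have h0 := layer p hp (fun _ => 1) measurable_const 0 (fun s _ x => by simp)
  simp only [one_mul] at h0
  have h1 := layer p hp (fun x => ENNReal.ofReal (p x)) hp.measurable.ennreal_ofReal 1
    (fun s hs x => by
      rw [map_smul_eq_mul, Real.norm_of_nonneg hs.le, ENNReal.ofReal_mul hs.le, pow_one])
  unfold ex
  rw [h0, h1, setLIntegral_one, add_zero, Nat.factorial_succ]
  push_cast
  rw [ENNReal.ofReal_mul (by positivity), mul_assoc]
  gcongr
  calc ∫⁻ x in {x : E | p x ≤ 1}, ENNReal.ofReal (p x) ≤ ∫⁻ x in {x : E | p x ≤ 1}, 1 := by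
        refine setLIntegral_mono measurable_const fun x hx => ?_
        rw [← ENNReal.ofReal_one]
        exact ENNReal.ofReal_le_ofReal hx
    _ = _ := setLIntegral_one _

/-- the change of variables -/
theorem exists_kappa : ∃ κ : ℝ≥0∞, κ ≠ 0 ∧ κ ≠ ⊤ ∧ ∀ f : E → ℝ≥0∞, Measurable f →
    ∫⁻ x, f x = κ * ∫⁻ y : Fin a → ℝ, ∫⁻ k : Fin b → ℝ, f (L (y, k)) := by
  let Lc : ((Fin a → ℝ) × (Fin b → ℝ)) ≃L[ℝ] E := L.toContinuousLinearEquiv
  let ν : Measure ((Fin a → ℝ) × (Fin b → ℝ)) := (volume : Measure (Fin a → ℝ)).prod volume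
  haveI : ν.IsAddHaarMeasure := Measure.prod.instIsAddHaarMeasure _ _
  let μ' : Measure E := Measure.map Lc ν
  haveI : μ'.IsAddHaarMeasure := Lc.isAddHaarMeasure_map ν
  have h1 : (volume : Measure E) = (Measure.addHaarScalarFactor volume μ') • μ' :=
    Measure.isAddLeftInvariant_eq_smul volume μ'
  refine ⟨(Measure.addHaarScalarFactor volume μ' : ℝ≥0), ?_, ENNReal.coe_ne_top, fun f hf => ?_⟩
  · have h2 := Measure.addHaarScalarFactor_pos_of_isAddHaarMeasure (volume : Measure E) μ'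
    exact_mod_cast h2.ne'
  · have hm : Measurable fun q : (Fin a → ℝ) × (Fin b → ℝ) => f (L q) :=
      hf.comp (L_cont L).measurable
    calc ∫⁻ x, f x = ∫⁻ x, f x ∂((Measure.addHaarScalarFactor volume μ') • μ') := by rw [← h1]
      _ = (Measure.addHaarScalarFactor volume μ' : ℝ≥0) * ∫⁻ x, f x ∂μ' := by
          rw [lintegral_smul_measure]; rfl
      _ = (Measure.addHaarScalarFactor volume μ' : ℝ≥0) * ∫⁻ q, f (L q) ∂ν := by
          congr 1
          exact lintegral_map hf (L_cont L).measurable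
      _ = _ := by
          rw [lintegral_prod _ hm.aemeasurable]

theorem rho_fin (hp : Continuous p) (c : ℝ) (hc : 0 < c) (hcp : ∀ x, c * ‖x‖ ≤ p x) :
    ∫⁻ y, rho p L y ≠ ⊤ := by
  obtain ⟨κ, h0, ht, h⟩ := exists_kappa L
  have h1 := h (ex p) (ex_meas p hp)
  have h2 := ex_fin p hp c hc hcp
  rw [h1] at h2
  intro h3
  apply h2
  show κ * ∫⁻ y : Fin a → ℝ, rho p L y = ⊤
  rw [h3, ENNReal.mul_top h0]

theorem rho_zero_fin (hp : Continuous p) (c : ℝ) (hc : 0 < c) (hcp : ∀ x, c * ‖x‖ ≤ p x) :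
    rho p L 0 ≠ ⊤ := by
  intro h0
  have h1 : ∀ y, rho p L y = ⊤ := by
    intro y
    have h2 := rho_logc p L hp ((2 : ℝ) • y) 0 (1 / 2) (by norm_num) (by norm_num)
    rw [h0, smul_zero, add_zero, smul_smul] at h2
    norm_num at h2
    have h3 : rho p L ((2 : ℝ) • y) ^ (1 / 2 : ℝ) ≠ 0 := by
      have := rho_pos p L hp ((2 : ℝ) • y)
      exact (ENNReal.rpow_pos_of_nonneg this (by norm_num)).ne'
    rw [ENNReal.mul_top h3] at h2
    exact top_le_iff.1 h2
  apply rho_fin p L hp c hc hcp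
  simp only [h1]
  rw [lintegral_const]
  exact ENNReal.top_mul (Measure.measure_univ_ne_zero.2 (NeZero.ne _))

theorem rho_lt_top (hp : Continuous p) (c : ℝ) (hc : 0 < c) (hcp : ∀ x, c * ‖x‖ ≤ p x)
    (y : Fin a → ℝ) : rho p L y < ⊤ := by
  have h2 := rho_logc p L hp y (-y) (1 / 2) (by norm_num) (by norm_num)
  rw [rho_even, show (1 / 2 : ℝ) • y + (1 - 1 / 2 : ℝ) • (-y) = 0 by module,
    ← ENNReal.rpow_add_of_nonneg _ _ (by norm_num) (by norm_num)] at h2
  norm_num at h2
  exact lt_of_le_of_lt h2 (rho_zero_fin p L hp c hc hcp).lt_top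

end Pool.Agent.TH591.Sm
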