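import Mathlib
import Pool.Agent.TH591.Sm.Marg

set_option autoImplicit false
set_option linter.unusedSectionVars false

/-!
# The marginal of `exp (-p)` is an admissible density; the averaged second difference on `E`
-/

namespace Pool.Agent.TH591.Sm

open MeasureTheory Set
open scoped ENNReal NNReal

section
variable {F : Type*} [NormedAddCommGroup F] [NormedSpace ℝ F] [FiniteDimensional ℝ F]

theorem semi_cont (η : Seminorm ℝ F) : Continuous η := (η.convexOn.locallyLipschitz).continuous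

theorem semi_bound (η : Seminorm ℝ F) : ∃ C, 0 < C ∧ ∀ x, η x ≤ C * ‖x‖ :=
  Seminorm.bound_of_continuous_normedSpace η (semi_cont η)
end

variable {E : Type*} [NormedAddCommGroup E] [InnerProductSpace ℝ E] [FiniteDimensional ℝ E]
  [MeasurableSpace E] [BorelSpace E] {a b : ℕ}

variable (p : Seminorm ℝ E) (hp : Continuous p) (L : ((Fin a → ℝ) × (Fin b → ℝ)) ≃ₗ[ℝ] E)

theorem lint_rho_mul (hp : Continuous p) (κ : ℝ≥0∞)
    (hκ : ∀ f : E → ℝ≥0∞, Measurable f →
      ∫⁻ x, f x = κ * ∫⁻ y : Fin a → ℝ, ∫⁻ k : Fin b → ℝ, f (L (y, k)))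
    (G : E → ℝ≥0∞) (g : (Fin a → ℝ) → ℝ≥0∞) (hG : Measurable G)
    (hg : ∀ y k, G (L (y, k)) = g y) :
    ∫⁻ x, ex p x * G x = κ * ∫⁻ y, rho p L y * g y := by
  rw [hκ (fun x => ex p x * G x) ((ex_meas p hp).mul hG)]
  congr 1
  refine lintegral_congr fun y => ?_
  simp only [hg]
  rw [lintegral_mul_const]
  · rfl
  · exact (exL_meas p L hp).comp measurable_prodMk_left

theorem rr_dens (hp : Continuous p) (c : ℝ) (hc : 0 < c) (hcp : ∀ x, c * ‖x‖ ≤ p x) :
    Dens (volume : Measure (Fin a → ℝ)) (fun y => (rho p L y).toReal) where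
  meas := (rho_meas p L hp).ennreal_toReal
  pos y := ENNReal.toReal_pos (rho_pos p L hp y).ne' (rho_lt_top p L hp c hc hcp y).ne
  even y := by rw [rho_even]
  logc u v s hs hs1 := by
    have h := rho_logc p L hp u v s hs hs1
    rw [ENNReal.toReal_rpow, ENNReal.toReal_rpow, ← ENNReal.toReal_mul]
    exact ENNReal.toReal_mono (rho_lt_top p L hp c hc hcp _).ne h
  int := integrable_toReal_of_lintegral_ne_top (rho_meas p L hp).aemeasurable
    (rho_fin p L hp c hc hcp)
  mom η := by
    obtain ⟨κ, hκ0, hκt, hκ⟩ := exists_kappa L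
    have hηc := semi_cont η
    -- the seminorm on `E`
    let h : Seminorm ℝ E := η.comp ((LinearMap.fst ℝ (Fin a → ℝ) (Fin b → ℝ)).comp
      L.symm.toLinearMap)
    have hh : ∀ y k, h (L (y, k)) = η y := by
      intro y k
      show η ((L.symm (L (y, k))).1) = η y
      rw [LinearEquiv.symm_apply_apply]
    obtain ⟨C, hC0, hC⟩ := semi_bound h
    have h1 := lint_rho_mul p L hp κ hκ (fun x => ENNReal.ofReal (h x))
      (fun y => ENNReal.ofReal (η y)) (semi_cont h).measurable.ennreal_ofReal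
      (fun y k => by rw [hh])
    have h2 : ∫⁻ x, ex p x * ENNReal.ofReal (h x) ≠ ⊤ := by
      have h3 := ex_mom p hp
      have h4 := ex_fin p hp c hc hcp
      have h5 : ∫⁻ x, ex p x * ENNReal.ofReal (h x)
          ≤ ENNReal.ofReal (C / c) * ∫⁻ x, ENNReal.ofReal (p x) * ex p x := by
        rw [← lintegral_const_mul' _ _ ENNReal.ofReal_ne_top]
        refine lintegral_mono fun x => ?_
        have h6 : h x ≤ C / c * p x := by
          refine (hC x).trans ?_
          rw [div_mul_eq_mul_div, le_div_iff₀ hc]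
          have := hcp x
          nlinarith
        calc ex p x * ENNReal.ofReal (h x) ≤ ex p x * ENNReal.ofReal (C / c * p x) := by
              gcongr
          _ = _ := by
              rw [ENNReal.ofReal_mul (by positivity)]
              ring
      refine ne_top_of_le_ne_top ?_ h5
      exact ENNReal.mul_ne_top ENNReal.ofReal_ne_top
        (ne_top_of_le_ne_top (ENNReal.mul_ne_top ENNReal.ofReal_ne_top h4) h3)
    have h3 : ∫⁻ y, rho p L y * ENNReal.ofReal (η y) ≠ ⊤ := by
      intro h4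
      rw [h1, h4, ENNReal.mul_top hκ0] at h2
      exact h2 rfl
    have h4 := integrable_toReal_of_lintegral_ne_top
      ((rho_meas p L hp).mul hηc.measurable.ennreal_ofReal).aemeasurable h3
    refine h4.congr (Filter.Eventually.of_forall fun y => ?_)
    simp only [Pi.mul_apply]
    rw [ENNReal.toReal_mul, ENNReal.toReal_ofReal (apply_nonneg η y)]

theorem piece_L (hp : Continuous p) (c : ℝ) (hc : 0 < c) (hcp : ∀ x, c * ‖x‖ ≤ p x)
    (h : Seminorm ℝ E) (η : Seminorm ℝ (Fin a → ℝ)) (hη : ∀ y k, h (L (y, k)) = η y)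
    (t : ℝ) (ht0 : 0 < t) (ht : t < 1) (N : ℕ) (hN : 0 < N) :
    ∫⁻ v, ex p v * ∫⁻ x, ex p x * ENNReal.ofReal (sd h x ((t / N) • v))
      ≤ ENNReal.ofReal (2 * t / ((N : ℝ) ^ 2 * (1 - t) ^ (2 * a + 2))) *
        ((∫⁻ x, ex p x) * ∫⁻ x, ex p x * ENNReal.ofReal (h x)) := by
  obtain ⟨κ, hκ0, hκt, hκ⟩ := exists_kappa L
  have hηc := semi_cont η
  have hhc := semi_cont h
  set δ : ℝ := t / N with hδ
  set r : (Fin a → ℝ) → ℝ := fun y => (rho p L y).toReal with hr
  have hD : Dens (volume : Measure (Fin a → ℝ)) r := rr_dens p L hp c hc hcp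
  have hrho : ∀ y, rho p L y = ENNReal.ofReal (r y) := fun y =>
    (ENNReal.ofReal_toReal (rho_lt_top p L hp c hc hcp y).ne).symm
  have hsdm : ∀ v : E, Measurable fun x => ENNReal.ofReal (sd h x (δ • v)) := by
    intro v
    unfold sd
    have : Continuous fun x => h (x + δ • v) + h (x - δ • v) - 2 * h x := by fun_prop
    exact this.measurable.ennreal_ofReal
  have hsd : ∀ y k y' k', sd h (L (y, k)) (δ • L (y', k')) = sd η y (δ • y') := by
    intro y k y' k'
    have f1 : L (y, k) + δ • L (y', k') = L (y + δ • y', k + δ • k') := by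
      rw [← map_smul, ← map_add]
      rfl
    have f2 : L (y, k) - δ • L (y', k') = L (y - δ • y', k - δ • k') := by
      rw [← map_smul, ← map_sub]
      rfl
    unfold sd
    rw [f1, f2, hη, hη, hη]
  -- the inner integral
  let G : (Fin a → ℝ) → ℝ≥0∞ := fun y' => ∫⁻ y, rho p L y * ENNReal.ofReal (sd η y (δ • y'))
  have hin : ∀ y' k', ∫⁻ x, ex p x * ENNReal.ofReal (sd h x (δ • L (y', k'))) = κ * G y' := by
    intro y' k'
    exact lint_rho_mul p L hp κ hκ _ (fun y => ENNReal.ofReal (sd η y (δ • y')))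
      (hsdm _) (fun y k => by rw [hsd])
  have hGE : Measurable fun v => ∫⁻ x, ex p x * ENNReal.ofReal (sd h x (δ • v)) := by
    have h1 : Continuous fun q : E × E => sd h q.2 (δ • q.1) := by
      unfold sd
      fun_prop
    exact (((ex_meas p hp).comp measurable_snd).mul h1.measurable.ennreal_ofReal).lintegral_prod_right'
  rw [lint_rho_mul p L hp κ hκ _ (fun y' => κ * G y') hGE hin]
  have hGr : ∀ y', G y' = ENNReal.ofReal (∫ y, r y * sd η y (δ • y')) := by
    intro y'
    have hint3 : Integrable (fun y => r y * sd η y (δ • y')) := by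
      have h4 := hD.int_shift η hηc (δ • y')
      have h5 := hD.int_shift η hηc (-(δ • y'))
      have h6 := hD.mom η
      have e : (fun y => r y * sd η y (δ • y'))
          = fun y => r y * η (y + δ • y') + r y * η (y + -(δ • y')) - 2 * (r y * η y) := by
        funext y
        unfold sd
        rw [sub_eq_add_neg y]
        ring
      rw [e]
      exact (h4.add h5).sub (h6.const_mul 2)
    rw [ofReal_integral_eq_lintegral_ofReal hint3 (Filter.Eventually.of_forall fun y =>
      mul_nonneg (hD.pos y).le (sd_nonneg η _ _))]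
    refine lintegral_congr fun y => ?_
    rw [ENNReal.ofReal_mul (hD.pos y).le, hrho]
  have havg := hD.avg η hηc t ht0 ht N hN
  rw [Module.finrank_fin_fun] at havg
  have e1 : ∫⁻ y', rho p L y' * (κ * G y')
      = κ * ∫⁻ v, ENNReal.ofReal (r v * ∫ y, r y * sd η y (δ • v)) := by
    rw [← lintegral_const_mul' _ _ hκt]
    refine lintegral_congr fun y' => ?_
    rw [hGr, hrho, ENNReal.ofReal_mul (hD.pos _).le]
    ring
  rw [e1]
  have e2 : ∫⁻ x, ex p x = κ * ENNReal.ofReal (∫ y, r y) := by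
    have h1 := lint_rho_mul p L hp κ hκ (fun _ => 1) (fun _ => 1) measurable_const
      (fun _ _ => rfl)
    simp only [mul_one] at h1
    rw [h1, ofReal_integral_eq_lintegral_ofReal hD.int (Filter.Eventually.of_forall fun y =>
      (hD.pos y).le)]
    simp only [hrho]
  have e3 : ∫⁻ x, ex p x * ENNReal.ofReal (h x) = κ * ENNReal.ofReal (∫ y, r y * η y) := by
    have h1 := lint_rho_mul p L hp κ hκ (fun x => ENNReal.ofReal (h x))
      (fun y => ENNReal.ofReal (η y)) hhc.measurable.ennreal_ofReal (fun y k => by rw [hη])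
    rw [h1, ofReal_integral_eq_lintegral_ofReal (hD.mom η) (Filter.Eventually.of_forall fun y =>
      mul_nonneg (hD.pos y).le (apply_nonneg η _))]
    congr 1
    refine lintegral_congr fun y => ?_
    rw [ENNReal.ofReal_mul (hD.pos y).le, hrho]
  rw [e2, e3]
  have h1t : 0 < 1 - t := by linarith
  have hN' : (0 : ℝ) < N := by exact_mod_cast hN
  have hR0 : 0 ≤ ∫ y, r y := integral_nonneg fun y => (hD.pos y).le
  rw [mul_assoc (2 * t / _), ENNReal.ofReal_mul (by positivity), ENNReal.ofReal_mul hR0] at havg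
  calc κ * (κ * ∫⁻ v, ENNReal.ofReal (r v * ∫ y, r y * sd η y (δ • v)))
      ≤ κ * (κ * (ENNReal.ofReal (2 * t / ((N : ℝ) ^ 2 * (1 - t) ^ (2 * a + 2))) *
        (ENNReal.ofReal (∫ y, r y) * ENNReal.ofReal (∫ y, r y * η y)))) := by gcongr
    _ = _ := by ring

/-- The averaged second difference of a seminorm vanishing on a subspace of codimension at
most `n`. -/
theorem piece_E (hp : Continuous p) (c : ℝ) (hc : 0 < c) (hcp : ∀ x, c * ‖x‖ ≤ p x)
    (h : Seminorm ℝ E) (W : Submodule ℝ E) (hW : ∀ w ∈ W, h w = 0) (n : ℕ)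
    (hn : Module.finrank ℝ E ≤ Module.finrank ℝ W + n)
    (t : ℝ) (ht0 : 0 < t) (ht : t < 1) (N : ℕ) (hN : 0 < N) :
    ∫⁻ v, ex p v * ∫⁻ x, ex p x * ENNReal.ofReal (sd h x ((t / N) • v))
      ≤ ENNReal.ofReal (2 * t / ((N : ℝ) ^ 2 * (1 - t) ^ (2 * n + 2))) *
        ((∫⁻ x, ex p x) * ∫⁻ x, ex p x * ENNReal.ofReal (h x)) := by
  obtain ⟨W', hW'⟩ := Submodule.exists_isCompl W
  set a := Module.finrank ℝ W' with ha
  set b := Module.finrank ℝ W with hb
  have hab : a ≤ n := by
    have h1 := Submodule.finrank_add_eq_of_isCompl hW'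
    omega
  let e1 : (Fin a → ℝ) ≃ₗ[ℝ] W' := LinearEquiv.ofFinrankEq _ _ (by rw [Module.finrank_fin_fun])
  let e2 : (Fin b → ℝ) ≃ₗ[ℝ] W := LinearEquiv.ofFinrankEq _ _ (by rw [Module.finrank_fin_fun])
  let L : ((Fin a → ℝ) × (Fin b → ℝ)) ≃ₗ[ℝ] E :=
    (LinearEquiv.prodCongr e1 e2).trans (Submodule.prodEquivOfIsCompl W' W hW'.symm)
  have hL : ∀ y k, L (y, k) = (e1 y : E) + (e2 k : E) := by
    intro y k
    simp [L]
  let η : Seminorm ℝ (Fin a → ℝ) := h.comp (W'.subtype.comp e1.toLinearMap)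
  have hη : ∀ y k, h (L (y, k)) = η y := by
    intro y k
    rw [hL]
    show h (e1 y + e2 k) = h (e1 y)
    apply le_antisymm
    · calc h (e1 y + e2 k) ≤ h (e1 y) + h (e2 k) := map_add_le_add h _ _
        _ = h (e1 y) := by rw [hW _ (e2 k).2, add_zero]
    · calc h (e1 y) = h ((e1 y + e2 k) - e2 k) := by rw [add_sub_cancel_right]
        _ ≤ h (e1 y + e2 k) + h (e2 k) := map_sub_le_add h _ _
        _ = _ := by rw [hW _ (e2 k).2, add_zero]
  refine (piece_L p L hp c hc hcp h η hη t ht0 ht N hN).trans ?_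
  gcongr ?_ * _
  apply ENNReal.ofReal_le_ofReal
  have h1t : 0 < 1 - t := by linarith
  have hN' : (0 : ℝ) < N := by exact_mod_cast hN
  have h5 : (1 - t) ^ (2 * n + 2) ≤ (1 - t) ^ (2 * a + 2) :=
    pow_le_pow_of_le_one h1t.le (by linarith) (by omega)
  exact div_le_div_of_nonneg_left (by positivity) (by positivity)
    (mul_le_mul_of_nonneg_left h5 (by positivity))

end Pool.Agent.TH591.Sm
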