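import Mathlib
import Pool.Agent.TH591.Sm.PieceE

set_option autoImplicit false
set_option linter.unusedSectionVars false

/-!
# Norms which are integrals of seminorms of small rank: the mean square of the derivative
-/

namespace Pool.Agent.TH591.Sm

open MeasureTheory Set Filter
open scoped ENNReal NNReal Topology

variable {E : Type*} [NormedAddCommGroup E] [InnerProductSpace ℝ E] [FiniteDimensional ℝ E]
  [MeasurableSpace E] [BorelSpace E]

variable {Ω : Type*} [MeasurableSpace Ω] (μ : Measure Ω) [SFinite μ]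

theorem swap_mul (A : E → ℝ≥0∞) (hA : Measurable A) (B : Ω × E → ℝ≥0∞) (hB : Measurable B) :
    ∫⁻ x, A x * ∫⁻ ω, B (ω, x) ∂μ = ∫⁻ ω, (∫⁻ x, A x * B (ω, x)) ∂μ := by
  have h1 : ∀ x, A x * ∫⁻ ω, B (ω, x) ∂μ = ∫⁻ ω, A x * B (ω, x) ∂μ := fun x =>
    (lintegral_const_mul _ (hB.comp measurable_prodMk_right)).symm
  simp only [h1]
  rw [lintegral_lintegral_swap]
  exact ((hA.comp measurable_fst).mul (hB.comp measurable_swap)).aemeasurable

/-- `g = ∫ h_ω dμ(ω)` for jointly measurable seminorms `h_ω` -/
structure IsInt (g : Seminorm ℝ E) (h : Ω → Seminorm ℝ E) : Prop where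
  meas : Measurable fun q : Ω × E => h q.1 q.2
  eq : ∀ x, ENNReal.ofReal (g x) = ∫⁻ ω, ENNReal.ofReal (h ω x) ∂μ

variable {μ} {g : Seminorm ℝ E} {h : Ω → Seminorm ℝ E}

theorem IsInt.integrable (H : IsInt μ g h) (x : E) : Integrable (fun ω => h ω x) μ := by
  have hm : Measurable fun ω => h ω x := H.meas.comp measurable_prodMk_right
  refine ⟨hm.aestronglyMeasurable, ?_⟩
  rw [hasFiniteIntegral_iff_ofReal (Eventually.of_forall fun ω => apply_nonneg _ _), ← H.eq]
  exact ENNReal.ofReal_lt_top

theorem IsInt.integral (H : IsInt μ g h) (x : E) : ∫ ω, h ω x ∂μ = g x := by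
  have h1 := ofReal_integral_eq_lintegral_ofReal (H.integrable x)
    (Eventually.of_forall fun ω => apply_nonneg _ _)
  rw [← H.eq] at h1
  have h2 := congrArg ENNReal.toReal h1
  rwa [ENNReal.toReal_ofReal (integral_nonneg fun ω => apply_nonneg _ _),
    ENNReal.toReal_ofReal (apply_nonneg _ _)] at h2

theorem IsInt.ofsd (H : IsInt μ g h) (x v : E) :
    ENNReal.ofReal (sd g x v) = ∫⁻ ω, ENNReal.ofReal (sd (h ω) x v) ∂μ := by
  have i1 := H.integrable (x + v)
  have i2 := H.integrable (x - v)
  have i3 := (H.integrable x).const_mul 2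
  have i4 : Integrable (fun ω => h ω (x + v) + h ω (x - v)) μ := i1.add i2
  have hi : Integrable (fun ω => sd (h ω) x v) μ := i4.sub i3
  have e : ∫ ω, sd (h ω) x v ∂μ = sd g x v := by
    unfold sd
    rw [integral_sub i4 i3, integral_add i1 i2, integral_const_mul, H.integral, H.integral,
      H.integral]
  rw [← e, ofReal_integral_eq_lintegral_ofReal hi (Eventually.of_forall fun ω => sd_nonneg _ _ _)]

/-- Step (B): the averaged second difference of `g`. -/
theorem IsInt.avg_sd (H : IsInt μ g h) (hg : Continuous g) (c : ℝ) (hc : 0 < c)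
    (hcp : ∀ x, c * ‖x‖ ≤ g x) (W : Ω → Submodule ℝ E) (hW : ∀ ω, ∀ w ∈ W ω, h ω w = 0) (n : ℕ)
    (hn : ∀ ω, Module.finrank ℝ E ≤ Module.finrank ℝ (W ω) + n)
    (t : ℝ) (ht0 : 0 < t) (ht : t < 1) (N : ℕ) (hN : 0 < N) :
    ∫⁻ v, ex g v * ∫⁻ x, ex g x * ENNReal.ofReal (sd g x ((t / N) • v))
      ≤ ENNReal.ofReal (2 * t / ((N : ℝ) ^ 2 * (1 - t) ^ (2 * n + 2))) *
        ((∫⁻ x, ex g x) * (ENNReal.ofReal (Module.finrank ℝ E + 1) * ∫⁻ x, ex g x)) := by
  set δ : ℝ := t / N with hδ
  have hem := ex_meas g hg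
  have hFm : Measurable fun q : (Ω × E) × E =>
      ENNReal.ofReal (sd (h q.1.1) q.2 (δ • q.1.2)) := by
    unfold sd
    refine Measurable.ennreal_ofReal ?_
    have m1 : Measurable fun q : (Ω × E) × E => h q.1.1 (q.2 + δ • q.1.2) :=
      H.meas.comp (measurable_fst.fst.prodMk
        (measurable_snd.add ((measurable_fst.snd).const_smul δ)))
    have m2 : Measurable fun q : (Ω × E) × E => h q.1.1 (q.2 - δ • q.1.2) :=
      H.meas.comp (measurable_fst.fst.prodMk
        (measurable_snd.sub ((measurable_fst.snd).const_smul δ)))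
    have m3 : Measurable fun q : (Ω × E) × E => h q.1.1 q.2 :=
      H.meas.comp (measurable_fst.fst.prodMk measurable_snd)
    exact (m1.add m2).sub (m3.const_mul 2)
  have e1 : ∀ v, ∫⁻ x, ex g x * ENNReal.ofReal (sd g x (δ • v))
      = ∫⁻ ω, (∫⁻ x, ex g x * ENNReal.ofReal (sd (h ω) x (δ • v))) ∂μ := by
    intro v
    simp only [H.ofsd]
    refine swap_mul μ _ hem (fun q => ENNReal.ofReal (sd (h q.1) q.2 (δ • v))) ?_
    exact hFm.comp ((measurable_fst.prodMk measurable_const).prodMk measurable_snd)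
  have hB : Measurable fun q : Ω × E =>
      ∫⁻ x, ex g x * ENNReal.ofReal (sd (h q.1) x (δ • q.2)) := by
    exact ((hem.comp measurable_snd).mul hFm).lintegral_prod_right'
  simp only [e1]
  rw [swap_mul μ _ hem _ hB]
  calc ∫⁻ ω, (∫⁻ v, ex g v * ∫⁻ x, ex g x * ENNReal.ofReal (sd (h ω) x (δ • v))) ∂μ
      ≤ ∫⁻ ω, ENNReal.ofReal (2 * t / ((N : ℝ) ^ 2 * (1 - t) ^ (2 * n + 2))) *
        ((∫⁻ x, ex g x) * ∫⁻ x, ex g x * ENNReal.ofReal (h ω x)) ∂μ :=
        lintegral_mono fun ω => piece_E g hg c hc hcp (h ω) (W ω) (hW ω) n (hn ω) t ht0 ht N hN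
    _ = ENNReal.ofReal (2 * t / ((N : ℝ) ^ 2 * (1 - t) ^ (2 * n + 2))) *
        ((∫⁻ x, ex g x) * ∫⁻ ω, (∫⁻ x, ex g x * ENNReal.ofReal (h ω x)) ∂μ) := by
        rw [lintegral_const_mul' _ _ ENNReal.ofReal_ne_top,
          lintegral_const_mul' _ _ (ex_fin g hg c hc hcp)]
    _ = ENNReal.ofReal (2 * t / ((N : ℝ) ^ 2 * (1 - t) ^ (2 * n + 2))) *
        ((∫⁻ x, ex g x) * ∫⁻ x, ex g x * ENNReal.ofReal (g x)) := by
        rw [← swap_mul μ _ hem _ H.meas.ennreal_ofReal]
        simp only [H.eq]
    _ ≤ _ := by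
        gcongr
        have h1 := ex_mom g hg
        simpa only [mul_comm] using h1

/-- Step (C): integration by parts, in the form of a translation. -/
theorem translate (g : Seminorm ℝ E) (hg : Continuous g) (c : ℝ) (hc : 0 < c)
    (hcp : ∀ x, c * ‖x‖ ≤ g x) (w : E) :
    ∫⁻ x, ex g x * ENNReal.ofReal ((g (x + w) - g x) ^ 2 * Real.exp (-|g (x + w) - g x|))
      ≤ ∫⁻ x, ex g x * ENNReal.ofReal (sd g x w) := by
  have hZ := ex_fin g hg c hc hcp
  have hem := ex_meas g hg
  set re : E → ℝ := fun x => Real.exp (-(g x)) with hre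
  have hrec : Continuous re := Real.continuous_exp.comp hg.neg
  have hexr : ∀ x, ex g x = ENNReal.ofReal (re x) := fun x => rfl
  have i0 : Integrable re := by
    refine ⟨hrec.aestronglyMeasurable, ?_⟩
    rw [hasFiniteIntegral_iff_ofReal (Eventually.of_forall fun x => (Real.exp_pos _).le)]
    exact hZ.lt_top
  have i1 : Integrable (fun x => re x * g x) := by
    refine ⟨(hrec.mul hg).aestronglyMeasurable, ?_⟩
    rw [hasFiniteIntegral_iff_ofReal (Eventually.of_forall fun x =>
      mul_nonneg (Real.exp_pos _).le (apply_nonneg g x))]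
    have h1 := ex_mom g hg
    have h2 : ∫⁻ x, ENNReal.ofReal (re x * g x) = ∫⁻ x, ENNReal.ofReal (g x) * ex g x := by
      refine lintegral_congr fun x => ?_
      rw [ENNReal.ofReal_mul (Real.exp_pos _).le, mul_comm]
      rfl
    rw [h2]
    exact h1.trans_lt (ENNReal.mul_ne_top ENNReal.ofReal_ne_top hZ).lt_top
  have i2 : ∀ u : E, Integrable (fun x => re x * g (x + u)) := by
    intro u
    have h1 : Integrable (fun x => re x * g x + re x * g u) := i1.add (i0.mul_const _)
    refine h1.mono' (hrec.mul (hg.comp (continuous_id.add continuous_const))).aestronglyMeasurable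
      (Eventually.of_forall fun x => ?_)
    rw [Real.norm_of_nonneg (mul_nonneg (Real.exp_pos _).le (apply_nonneg g _)), ← mul_add]
    exact mul_le_mul_of_nonneg_left (map_add_le_add g _ _) (Real.exp_pos _).le
  have i3 : Integrable (fun x => re x * (g (x + w) - g x)) := by
    have := (i2 w).sub i1
    refine this.congr (Eventually.of_forall fun x => ?_)
    simp only [Pi.sub_apply]; ring
  have i4 : Integrable (fun x => re x * (g (x - w) - g x)) := by
    have := (i2 (-w)).sub i1
    refine this.congr (Eventually.of_forall fun x => ?_)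
    simp only [Pi.sub_apply, sub_eq_add_neg]; ring
  have i5 : Integrable (fun x => re (x + w) * (g x - g (x + w))) := by
    have := i4.comp_add_right w
    simpa only [add_sub_cancel_right] using this
  have e1 : ∫ x, re x * sd g x w
      = ∫ x, re x * ((g (x + w) - g x) * (1 - Real.exp (-(g (x + w) - g x)))) := by
    have h1 : ∫ x, re x * sd g x w
        = (∫ x, re x * (g (x + w) - g x)) + ∫ x, re x * (g (x - w) - g x) := by
      rw [← integral_add i3 i4]
      congr 1
      funext x
      unfold sd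
      ring
    have h2 : ∫ x, re x * (g (x - w) - g x) = ∫ x, re (x + w) * (g x - g (x + w)) := by
      rw [← integral_add_right_eq_self (fun x => re x * (g (x - w) - g x)) w]
      simp only [add_sub_cancel_right]
    rw [h1, h2, ← integral_add i3 i5]
    congr 1
    funext x
    have h3 : re (x + w) = re x * Real.exp (-(g (x + w) - g x)) := by
      rw [hre]
      simp only
      rw [← Real.exp_add]
      congr 1
      ring
    rw [h3]
    ring
  have i6 : Integrable (fun x => re x * sd g x w) := by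
    have := i3.add i4
    refine this.congr (Eventually.of_forall fun x => ?_)
    simp only [Pi.add_apply]
    unfold sd
    ring
  have i7 : Integrable
      (fun x => re x * ((g (x + w) - g x) * (1 - Real.exp (-(g (x + w) - g x))))) := by
    have := i3.add i5
    refine this.congr (Eventually.of_forall fun x => ?_)
    simp only [Pi.add_apply]
    have h3 : re (x + w) = re x * Real.exp (-(g (x + w) - g x)) := by
      rw [hre]
      simp only
      rw [← Real.exp_add]
      congr 1
      ring
    rw [h3]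
    ring
  have key : ∀ u : ℝ, u ^ 2 * Real.exp (-|u|) ≤ u * (1 - Real.exp (-u)) := by
    intro u
    rcases le_total 0 u with hu | hu
    · rw [abs_of_nonneg hu]
      have h1 := Real.add_one_le_exp u
      have h2 : Real.exp (-u) * Real.exp u = 1 := by rw [← Real.exp_add]; simp
      have h3 : u * Real.exp (-u) ≤ 1 - Real.exp (-u) := by
        have : (u + 1) * Real.exp (-u) ≤ Real.exp u * Real.exp (-u) :=
          mul_le_mul_of_nonneg_right h1 (Real.exp_pos _).le
        nlinarith
      nlinarith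
    · rw [abs_of_nonpos hu, neg_neg]
      have h1 := Real.add_one_le_exp (-u)
      have h2 : Real.exp u ≤ 1 := by rw [Real.exp_le_one_iff]; exact hu
      have h3 := Real.exp_pos u
      nlinarith [mul_nonneg (neg_nonneg.2 hu) (sub_nonneg.2 h1), sq_nonneg u,
        mul_nonneg (sq_nonneg u) (sub_nonneg.2 h2)]
  calc ∫⁻ x, ex g x * ENNReal.ofReal ((g (x + w) - g x) ^ 2 * Real.exp (-|g (x + w) - g x|))
      ≤ ∫⁻ x, ENNReal.ofReal
          (re x * ((g (x + w) - g x) * (1 - Real.exp (-(g (x + w) - g x))))) := by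
        refine lintegral_mono fun x => ?_
        rw [hexr, ← ENNReal.ofReal_mul (Real.exp_pos _).le]
        exact ENNReal.ofReal_le_ofReal (mul_le_mul_of_nonneg_left (key _) (Real.exp_pos _).le)
    _ = ENNReal.ofReal (∫ x, re x * ((g (x + w) - g x) * (1 - Real.exp (-(g (x + w) - g x))))) := by
        rw [ofReal_integral_eq_lintegral_ofReal i7]
        refine Eventually.of_forall fun x => mul_nonneg (Real.exp_pos _).le ?_
        exact le_trans (by positivity) (key _)
    _ = ENNReal.ofReal (∫ x, re x * sd g x w) := by rw [e1]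
    _ = ∫⁻ x, ex g x * ENNReal.ofReal (sd g x w) := by
        rw [ofReal_integral_eq_lintegral_ofReal i6]
        · refine lintegral_congr fun x => ?_
          rw [ENNReal.ofReal_mul (Real.exp_pos _).le, hexr]
        · exact Eventually.of_forall fun x => mul_nonneg (Real.exp_pos _).le (sd_nonneg g _ _)

end Pool.Agent.TH591.Sm
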