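import Mathlib
import Pool.Agent.TH591.Sm.Main

set_option autoImplicit false
set_option linter.unusedSectionVars false

/-!
# The mean square of the derivative of the norm
-/

namespace Pool.Agent.TH591.Sm

open MeasureTheory Set Filter
open scoped ENNReal NNReal Topology

variable {E : Type*} [NormedAddCommGroup E] [InnerProductSpace ℝ E] [FiniteDimensional ℝ E]
  [MeasurableSpace E] [BorelSpace E]

theorem df_smul (g : Seminorm ℝ E) (s : ℝ) (hs : 0 < s) (x : E) :
    fderiv ℝ g (s • x) = fderiv ℝ g x := by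
  have h1 : fderiv ℝ (fun y => g (s • y)) x = s • fderiv ℝ g (s • x) := fderiv_comp_smul s
  have h2 : (fun y => g (s • y)) = fun y => s • g y := by
    funext y
    rw [map_smul_eq_mul, Real.norm_of_nonneg hs.le, smul_eq_mul]
  letI : Invertible s := invertibleOfNonzero hs.ne'
  have h3 : fderiv ℝ (fun y => s • g y) x = s • fderiv ℝ g x :=
    fderiv_const_smul_of_invertible (f := g) s
  rw [h2, h3] at h1
  exact (smul_right_injective _ hs.ne' h1).symm

theorem df_meas (g : E → ℝ) : Measurable fun q : E × E => fderiv ℝ g q.1 q.2 := by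
  let b := stdOrthonormalBasis ℝ E
  have e : (fun q : E × E => fderiv ℝ g q.1 q.2)
      = fun q => ∑ i, inner ℝ (b i) q.2 * fderiv ℝ g q.1 (b i) := by
    funext q
    conv_lhs => rw [← b.sum_repr' q.2]
    rw [map_sum]
    refine Finset.sum_congr rfl fun i _ => ?_
    rw [map_smul, smul_eq_mul]
  rw [e]
  refine Finset.measurable_sum _ fun i _ => ?_
  refine Measurable.mul ?_ ?_
  · exact (continuous_const.inner continuous_snd).measurable
  · exact (measurable_fderiv_apply_const ℝ g (b i)).comp measurable_fst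

/-- the pointwise limit -/
theorem point_lim (g : Seminorm ℝ E) (hg : Continuous g) (t : ℝ) (ht : 0 < t) (v x : E) :
    ex g v * (ex g x * ENNReal.ofReal (t ^ 2 * (fderiv ℝ g x v) ^ 2))
      ≤ liminf (fun n : ℕ => ex g v * (ex g x * ENNReal.ofReal (((n + 1 : ℕ) : ℝ) ^ 2 *
        ((g (x + (t / (n + 1 : ℕ)) • v) - g x) ^ 2 *
          Real.exp (-|g (x + (t / (n + 1 : ℕ)) • v) - g x|))))) atTop := by
  by_cases hd : DifferentiableAt ℝ g x
  · have h1 : Tendsto (fun n : ℕ => ((n + 1 : ℕ) : ℝ) / t) atTop atTop := by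
      apply Tendsto.atTop_div_const ht
      exact tendsto_natCast_atTop_atTop.comp (tendsto_add_atTop_nat 1)
    have h2 := hd.hasFDerivAt.lim v (c := fun n : ℕ => ((n + 1 : ℕ) : ℝ) / t) (l := atTop)
      (tendsto_norm_atTop_atTop.comp h1)
    have h3 : Tendsto (fun n : ℕ => ((n + 1 : ℕ) : ℝ) * (g (x + (t / (n + 1 : ℕ)) • v) - g x))
        atTop (𝓝 (t * fderiv ℝ g x v)) := by
      have h4 := h2.const_mul t
      refine h4.congr fun n => ?_
      rw [inv_div, smul_eq_mul]
      field_simp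
    have h5 : Tendsto (fun n : ℕ => g (x + (t / (n + 1 : ℕ)) • v) - g x) atTop (𝓝 0) := by
      have h6 : Tendsto (fun n : ℕ => t / ((n + 1 : ℕ) : ℝ)) atTop (𝓝 0) :=
        tendsto_const_nhds.div_atTop (tendsto_natCast_atTop_atTop.comp (tendsto_add_atTop_nat 1))
      have h7 : Tendsto (fun n : ℕ => x + (t / (n + 1 : ℕ)) • v) atTop (𝓝 (x + (0 : ℝ) • v)) :=
        tendsto_const_nhds.add (h6.smul_const v)
      rw [zero_smul, add_zero] at h7
      have h8 := ((hg.tendsto x).comp h7).sub_const (g x)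
      rw [sub_self] at h8
      exact h8
    have h6 : Tendsto (fun n : ℕ => ((n + 1 : ℕ) : ℝ) ^ 2 *
        ((g (x + (t / (n + 1 : ℕ)) • v) - g x) ^ 2 *
          Real.exp (-|g (x + (t / (n + 1 : ℕ)) • v) - g x|))) atTop
        (𝓝 (t ^ 2 * (fderiv ℝ g x v) ^ 2)) := by
      have h7 := (h3.pow 2).mul ((Real.continuous_exp.tendsto _).comp (h5.abs.neg))
      rw [abs_zero, neg_zero, Real.exp_zero, mul_one, mul_pow] at h7
      refine h7.congr fun n => ?_
      simp only [Function.comp]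
      ring
    have h7 := ENNReal.Tendsto.const_mul (a := ex g v) (ENNReal.Tendsto.const_mul (a := ex g x)
      (ENNReal.tendsto_ofReal h6) (Or.inr ENNReal.ofReal_ne_top)) (Or.inr ENNReal.ofReal_ne_top)
    rw [h7.liminf_eq]
  · rw [fderiv_zero_of_not_differentiableAt hd]
    simp

variable {Ω : Type*} [MeasurableSpace Ω] {μ : Measure Ω} [SFinite μ]
  {g : Seminorm ℝ E} {h : Ω → Seminorm ℝ E}

/-- Fatou's lemma. -/
theorem IsInt.fatou (H : IsInt μ g h) (hg : Continuous g) (c : ℝ) (hc : 0 < c)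
    (hcp : ∀ x, c * ‖x‖ ≤ g x) (W : Ω → Submodule ℝ E) (hW : ∀ ω, ∀ w ∈ W ω, h ω w = 0) (n : ℕ)
    (hn : ∀ ω, Module.finrank ℝ E ≤ Module.finrank ℝ (W ω) + n)
    (t : ℝ) (ht0 : 0 < t) (ht : t < 1) :
    ∫⁻ q : E × E, ex g q.1 * (ex g q.2 * ENNReal.ofReal (t ^ 2 * (fderiv ℝ g q.2 q.1) ^ 2))
        ∂((volume : Measure E).prod volume)
      ≤ ENNReal.ofReal (2 * t / ((1 - t) ^ (2 * n + 2))) *
        ((∫⁻ x, ex g x) * (ENNReal.ofReal (Module.finrank ℝ E + 1) * ∫⁻ x, ex g x)) := by
  have hem := ex_meas g hg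
  set f : ℕ → E × E → ℝ≥0∞ := fun N q => ex g q.1 * (ex g q.2 * ENNReal.ofReal
    (((N + 1 : ℕ) : ℝ) ^ 2 * ((g (q.2 + (t / (N + 1 : ℕ)) • q.1) - g q.2) ^ 2 *
          Real.exp (-|g (q.2 + (t / (N + 1 : ℕ)) • q.1) - g q.2|)))) with hf
  have hfm : ∀ N, Measurable (f N) := by
    intro N
    have h1 : Continuous fun q : E × E => (((N + 1 : ℕ) : ℝ) ^ 2 *
        ((g (q.2 + (t / (N + 1 : ℕ)) • q.1) - g q.2) ^ 2 *
          Real.exp (-|g (q.2 + (t / (N + 1 : ℕ)) • q.1) - g q.2|))) := by fun_prop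
    exact (hem.comp measurable_fst).mul ((hem.comp measurable_snd).mul
      h1.measurable.ennreal_ofReal)
  have hb : ∀ N, ∫⁻ q, f N q ∂((volume : Measure E).prod volume)
      ≤ ENNReal.ofReal (2 * t / ((1 - t) ^ (2 * n + 2))) *
        ((∫⁻ x, ex g x) * (ENNReal.ofReal (Module.finrank ℝ E + 1) * ∫⁻ x, ex g x)) := by
    intro N
    rw [lintegral_prod _ (hfm N).aemeasurable]
    have hN' : (0 : ℝ) < (N + 1 : ℕ) := by exact_mod_cast N.succ_pos
    have h1t : 0 < 1 - t := by linarith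
    calc ∫⁻ v, ∫⁻ x, f N (v, x)
        ≤ ∫⁻ v, ENNReal.ofReal (((N + 1 : ℕ) : ℝ) ^ 2) *
            (ex g v * ∫⁻ x, ex g x * ENNReal.ofReal (sd g x ((t / (N + 1 : ℕ)) • v))) := by
          refine lintegral_mono fun v => ?_
          have e : ∀ x, f N (v, x) = (ENNReal.ofReal (((N + 1 : ℕ) : ℝ) ^ 2) * ex g v) *
              (ex g x * ENNReal.ofReal ((g (x + (t / (N + 1 : ℕ)) • v) - g x) ^ 2 *
                Real.exp (-|g (x + (t / (N + 1 : ℕ)) • v) - g x|))) := by
            intro x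
            show ex g v * (ex g x * ENNReal.ofReal (_ * _)) = _
            rw [ENNReal.ofReal_mul (by positivity)]
            ring
          simp only [e]
          have hne : ENNReal.ofReal (((N + 1 : ℕ) : ℝ) ^ 2) * ex g v ≠ ⊤ :=
            ENNReal.mul_ne_top ENNReal.ofReal_ne_top ENNReal.ofReal_ne_top
          rw [lintegral_const_mul' _ _ hne, mul_assoc]
          exact mul_le_mul' le_rfl (mul_le_mul' le_rfl (translate g hg c hc hcp _))
      _ = ENNReal.ofReal (((N + 1 : ℕ) : ℝ) ^ 2) * ∫⁻ v,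
            (ex g v * ∫⁻ x, ex g x * ENNReal.ofReal (sd g x ((t / (N + 1 : ℕ)) • v))) :=
          lintegral_const_mul' _ _ ENNReal.ofReal_ne_top
      _ ≤ ENNReal.ofReal (((N + 1 : ℕ) : ℝ) ^ 2) *
            (ENNReal.ofReal (2 * t / (((N + 1 : ℕ) : ℝ) ^ 2 * (1 - t) ^ (2 * n + 2))) *
        ((∫⁻ x, ex g x) * (ENNReal.ofReal (Module.finrank ℝ E + 1) * ∫⁻ x, ex g x))) := by
          gcongr
          exact H.avg_sd hg c hc hcp W hW n hn t ht0 ht (N + 1) N.succ_pos
      _ = _ := by
          rw [← mul_assoc, ← ENNReal.ofReal_mul (by positivity)]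
          congr 2
          field_simp
  calc ∫⁻ q : E × E, ex g q.1 * (ex g q.2 * ENNReal.ofReal (t ^ 2 * (fderiv ℝ g q.2 q.1) ^ 2))
        ∂((volume : Measure E).prod volume)
      ≤ ∫⁻ q : E × E, liminf (fun N => f N q) atTop ∂((volume : Measure E).prod volume) :=
        lintegral_mono fun q => point_lim g hg t ht0 q.1 q.2
    _ ≤ liminf (fun N => ∫⁻ q, f N q ∂((volume : Measure E).prod volume)) atTop :=
        lintegral_liminf_le hfm
    _ ≤ liminf (fun _ : ℕ => ENNReal.ofReal (2 * t / ((1 - t) ^ (2 * n + 2))) *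
        ((∫⁻ x, ex g x) * (ENNReal.ofReal (Module.finrank ℝ E + 1) * ∫⁻ x, ex g x))) atTop :=
        liminf_le_liminf (Eventually.of_forall hb)
    _ = _ := by rw [liminf_const]

/-- The mean square of the derivative over the unit ball. -/
theorem IsInt.mean_sq (H : IsInt μ g h) (hg : Continuous g) (c : ℝ) (hc : 0 < c)
    (hcp : ∀ x, c * ‖x‖ ≤ g x) (W : Ω → Submodule ℝ E) (hW : ∀ ω, ∀ w ∈ W ω, h ω w = 0) (n : ℕ)
    (hn : ∀ ω, Module.finrank ℝ E ≤ Module.finrank ℝ (W ω) + n) :
    ∫⁻ x in {x : E | g x ≤ 1}, ∫⁻ v in {x : E | g x ≤ 1},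
        ENNReal.ofReal ((fderiv ℝ g x v) ^ 2)
      ≤ ENNReal.ofReal (16 * (n + 2) / (Module.finrank ℝ E + 2)) *
        (volume {x : E | g x ≤ 1}) ^ 2 := by
  set d := Module.finrank ℝ E with hd
  set V := volume {x : E | g x ≤ 1} with hV
  set D : E × E → ℝ≥0∞ := fun q => ENNReal.ofReal ((fderiv ℝ g q.1 q.2) ^ 2) with hD
  have hDm : Measurable D := ((df_meas g).pow_const 2).ennreal_ofReal
  have hem := ex_meas g hg
  set I := ∫⁻ x in {x : E | g x ≤ 1}, ∫⁻ v in {x : E | g x ≤ 1}, D (x, v) with hI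
  have hZ : ∫⁻ x, ex g x = ENNReal.ofReal (d.factorial : ℝ) * V := by
    have h1 := layer g hg (fun _ => 1) measurable_const 0 (fun s _ x => by simp)
    simp only [one_mul] at h1
    unfold ex
    rw [h1, setLIntegral_one, add_zero]
  -- the integral over the direction
  have hv : ∀ x, ∫⁻ v, ex g v * D (x, v) = ENNReal.ofReal ((d + 2).factorial : ℝ) *
      ∫⁻ v in {x : E | g x ≤ 1}, D (x, v) := by
    intro x
    have h1 := layer g hg (fun v => D (x, v)) (hDm.comp measurable_prodMk_left) 2 (fun s _ v => by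
      show ENNReal.ofReal ((fderiv ℝ g x (s • v)) ^ 2) = _ * ENNReal.ofReal ((fderiv ℝ g x v) ^ 2)
      rw [map_smul, smul_eq_mul, mul_pow, ENNReal.ofReal_mul (by positivity)])
    rw [← h1]
    exact lintegral_congr fun v => mul_comm _ _
  have hx : ∫⁻ x, ex g x * ∫⁻ v in {x : E | g x ≤ 1}, D (x, v)
      = ENNReal.ofReal (d.factorial : ℝ) * I := by
    have h1 := layer g hg (fun x => ∫⁻ v in {x : E | g x ≤ 1}, D (x, v))
      (hDm.lintegral_prod_right') 0 (fun s hs x => by
        simp only [pow_zero, ENNReal.ofReal_one, one_mul, hD, df_smul g s hs x])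
    rw [add_zero] at h1
    rw [← hI] at h1
    rw [← h1]
    exact lintegral_congr fun v => mul_comm _ _
  -- put it together
  have hn2 : (0 : ℝ) < n + 2 := by positivity
  set t : ℝ := 1 / (n + 2) with ht
  have ht0 : 0 < t := by positivity
  have ht1 : t < 1 := by
    rw [ht, div_lt_one hn2]
    have : (0 : ℝ) ≤ n := by positivity
    linarith
  have hF := H.fatou hg c hc hcp W hW n hn t ht0 ht1
  have e1 : ∫⁻ q : E × E, ex g q.1 * (ex g q.2 * ENNReal.ofReal (t ^ 2 * (fderiv ℝ g q.2 q.1) ^ 2))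
        ∂((volume : Measure E).prod volume)
      = ENNReal.ofReal (t ^ 2) * (ENNReal.ofReal ((d + 2).factorial : ℝ) *
        (ENNReal.ofReal (d.factorial : ℝ) * I)) := by
    have hm : Measurable fun q : E × E =>
        ex g q.1 * (ex g q.2 * ENNReal.ofReal (t ^ 2 * (fderiv ℝ g q.2 q.1) ^ 2)) := by
      refine (hem.comp measurable_fst).mul ((hem.comp measurable_snd).mul ?_)
      exact ((((df_meas g).comp measurable_swap).pow_const 2).const_mul _).ennreal_ofReal
    rw [lintegral_prod_symm' _ hm]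
    calc ∫⁻ x, ∫⁻ v, ex g v * (ex g x * ENNReal.ofReal (t ^ 2 * (fderiv ℝ g x v) ^ 2))
        = ∫⁻ x, ENNReal.ofReal (t ^ 2) * (ENNReal.ofReal ((d + 2).factorial : ℝ) *
            (ex g x * ∫⁻ v in {x : E | g x ≤ 1}, D (x, v))) := by
          refine lintegral_congr fun x => ?_
          have e2 : ∀ v, ex g v * (ex g x * ENNReal.ofReal (t ^ 2 * (fderiv ℝ g x v) ^ 2))
              = (ENNReal.ofReal (t ^ 2) * ex g x) * (ex g v * D (x, v)) := by
            intro v
            rw [ENNReal.ofReal_mul (by positivity)]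
            show _ = _ * (_ * ENNReal.ofReal ((fderiv ℝ g x v) ^ 2))
            ring
          simp only [e2]
          have hne : ENNReal.ofReal (t ^ 2) * ex g x ≠ ⊤ :=
            ENNReal.mul_ne_top ENNReal.ofReal_ne_top ENNReal.ofReal_ne_top
          rw [lintegral_const_mul' _ _ hne, hv]
          ring
      _ = _ := by
          rw [lintegral_const_mul' _ _ ENNReal.ofReal_ne_top,
            lintegral_const_mul' _ _ ENNReal.ofReal_ne_top, hx]
  rw [e1, hZ] at hF
  -- numerical part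
  have hd0 : (0 : ℝ) < d + 2 := by positivity
  have hfd : (0 : ℝ) < (d.factorial : ℝ) := by exact_mod_cast d.factorial_pos
  have hfd2 : ((d + 2).factorial : ℝ) = (d + 2) * ((d + 1) * d.factorial) := by
    rw [Nat.factorial_succ, Nat.factorial_succ]
    push_cast
    ring
  have hA : ENNReal.ofReal (t ^ 2) * (ENNReal.ofReal ((d + 2).factorial : ℝ) *
        (ENNReal.ofReal (d.factorial : ℝ) * I))
      = ENNReal.ofReal (t ^ 2 * (((d + 2).factorial : ℝ) * (d.factorial : ℝ))) * I := by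
    rw [ENNReal.ofReal_mul (by positivity), ENNReal.ofReal_mul (by positivity)]
    ring
  have hB : ENNReal.ofReal (2 * t / ((1 - t) ^ (2 * n + 2))) *
        ((ENNReal.ofReal (d.factorial : ℝ) * V) * (ENNReal.ofReal ((d : ℝ) + 1) *
          (ENNReal.ofReal (d.factorial : ℝ) * V)))
      = ENNReal.ofReal (2 * t / ((1 - t) ^ (2 * n + 2)) *
          ((d.factorial : ℝ) * (((d : ℝ) + 1) * (d.factorial : ℝ)))) * V ^ 2 := by
    have h1t : 0 < 1 - t := by linarith
    rw [ENNReal.ofReal_mul (by positivity), ENNReal.ofReal_mul (by positivity),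
      ENNReal.ofReal_mul (by positivity)]
    ring
  rw [hA, hB] at hF
  set A : ℝ := t ^ 2 * (((d + 2).factorial : ℝ) * (d.factorial : ℝ)) with hAdef
  have hA0 : 0 < A := by rw [hAdef, hfd2]; positivity
  have hnum : 2 * t / ((1 - t) ^ (2 * n + 2)) * ((d.factorial : ℝ) * (((d : ℝ) + 1) *
      (d.factorial : ℝ))) ≤ A * (16 * (n + 2) / (d + 2)) := by
    have h1t : 1 - t = ((n : ℝ) + 1) / (n + 2) := by
      rw [ht]
      field_simp
      ring
    have h8 : 1 ≤ 8 * (1 - t) ^ (2 * n + 2) := by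
      have h2 : (1 - t)⁻¹ ≤ Real.exp (1 / (n + 1)) := by
        rw [h1t, inv_div]
        have := Real.add_one_le_exp (1 / ((n : ℝ) + 1))
        refine le_trans (le_of_eq ?_) this
        field_simp
        ring
      have h3 : ((1 - t)⁻¹) ^ (2 * n + 2) ≤ 8 := by
        have h0 : 0 ≤ (1 - t)⁻¹ := by rw [h1t]; positivity
        calc ((1 - t)⁻¹) ^ (2 * n + 2) ≤ (Real.exp (1 / (n + 1))) ^ (2 * n + 2) := by gcongr
          _ = Real.exp 2 := by
              rw [← Real.exp_nat_mul]
              congr 1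
              push_cast
              field_simp
          _ ≤ 8 := by
              have h4 := Real.exp_one_lt_d9
              have h5 : Real.exp 2 = Real.exp 1 * Real.exp 1 := by
                rw [← Real.exp_add]; norm_num
              rw [h5]
              have h6 := Real.exp_pos 1
              nlinarith
      rw [inv_pow] at h3
      have h4 : 0 < (1 - t) ^ (2 * n + 2) := by rw [h1t]; positivity
      rwa [inv_le_iff_one_le_mul₀ h4] at h3
    have h4 : 0 < (1 - t) ^ (2 * n + 2) := by rw [h1t]; positivity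
    have htn : t * (n + 2) = 1 := by rw [ht]; field_simp
    have e3 : A * (16 * (n + 2) / (d + 2))
        = 16 * t * ((d.factorial : ℝ) * (((d : ℝ) + 1) * (d.factorial : ℝ))) := by
      rw [hAdef, hfd2]
      have : t ^ 2 * ((d + 2) * ((d + 1) * (d.factorial : ℝ)) * (d.factorial : ℝ)) *
          (16 * (n + 2) / (d + 2)) = 16 * t * (t * (n + 2)) *
            ((d.factorial : ℝ) * (((d : ℝ) + 1) * (d.factorial : ℝ))) := by
        field_simp
      rw [this, htn, mul_one]
    rw [e3]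
    refine mul_le_mul_of_nonneg_right ?_ (by positivity)
    rw [div_le_iff₀ h4]
    nlinarith [mul_le_mul_of_nonneg_left h8 ht0.le]
  have hA0' : ENNReal.ofReal A ≠ 0 := by
    rw [Ne, ENNReal.ofReal_eq_zero, not_le]; exact hA0
  have hfin : ENNReal.ofReal A * I
      ≤ ENNReal.ofReal A * (ENNReal.ofReal (16 * (n + 2) / (d + 2)) * V ^ 2) := by
    refine hF.trans ?_
    rw [← mul_assoc (ENNReal.ofReal A), ← ENNReal.ofReal_mul hA0.le]
    exact mul_le_mul' (ENNReal.ofReal_le_ofReal hnum) le_rfl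
  exact (ENNReal.mul_le_mul_iff_right hA0' ENNReal.ofReal_ne_top).1 hfin

end Pool.Agent.TH591.Sm
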