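import Mathlib
import Pool.Agent.TH591.Sm.Main2

set_option autoImplicit false
set_option linter.unusedSectionVars false

/-!
# From the mean square to the mean
-/

namespace Pool.Agent.TH591.Sm

open MeasureTheory Set Filter
open scoped ENNReal NNReal Topology

variable {E : Type*} [NormedAddCommGroup E] [InnerProductSpace ℝ E] [FiniteDimensional ℝ E]
  [MeasurableSpace E] [BorelSpace E]

theorem flat_int (g : E → ℝ) (K : Set E) (hKf : volume K ≠ ⊤)
    (R : ℝ) (hR : ∀ x ∈ K, ‖x‖ ≤ R) (hKm : MeasurableSet K) (ρ : ℝ) (hρ : 0 < ρ)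
    (hI : ∫⁻ x in K, ∫⁻ v in K, ENNReal.ofReal ((fderiv ℝ g x v) ^ 2)
      ≤ ENNReal.ofReal (ρ ^ 2) * volume K ^ 2) :
    ∫ z in K, ∫ z' in K, |fderiv ℝ g z z'| ≤ ρ * (volume K).toReal ^ 2 := by
  have hdm := df_meas g
  have e1 : ∀ z, ∫ z' in K, |fderiv ℝ g z z'|
      = (∫⁻ z' in K, ENNReal.ofReal |fderiv ℝ g z z'|).toReal := by
    intro z
    refine integral_eq_lintegral_of_nonneg_ae (Eventually.of_forall fun _ => abs_nonneg _) ?_
    exact (fderiv ℝ g z).continuous.abs.aestronglyMeasurable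
  have hfin : ∀ z, ∫⁻ z' in K, ENNReal.ofReal |fderiv ℝ g z z'| < ⊤ := by
    intro z
    calc ∫⁻ z' in K, ENNReal.ofReal |fderiv ℝ g z z'|
        ≤ ∫⁻ z' in K, ENNReal.ofReal (‖fderiv ℝ g z‖ * R) := by
          refine setLIntegral_mono measurable_const fun v hv => ENNReal.ofReal_le_ofReal ?_
          rw [← Real.norm_eq_abs]
          exact ((fderiv ℝ g z).le_opNorm v).trans
            (mul_le_mul_of_nonneg_left (hR v hv) (norm_nonneg _))
      _ = ENNReal.ofReal (‖fderiv ℝ g z‖ * R) * volume K := setLIntegral_const _ _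
      _ < ⊤ := (ENNReal.mul_ne_top ENNReal.ofReal_ne_top hKf).lt_top
  have hAm : Measurable fun z => ∫⁻ z' in K, ENNReal.ofReal |fderiv ℝ g z z'| := by
    have : Measurable fun q : E × E => ENNReal.ofReal |fderiv ℝ g q.1 q.2| := by
      have h1 : Measurable fun q : E × E => |fderiv ℝ g q.1 q.2| :=
        measurable_abs.comp hdm
      exact h1.ennreal_ofReal
    exact this.lintegral_prod_right'
  simp only [e1]
  rw [integral_toReal hAm.aemeasurable (Eventually.of_forall hfin)]
  have hpt : ∀ a : ℝ, ENNReal.ofReal |a|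
      ≤ ENNReal.ofReal (1 / (2 * ρ)) * ENNReal.ofReal (a ^ 2) + ENNReal.ofReal (ρ / 2) := by
    intro a
    rw [← ENNReal.ofReal_mul (by positivity), ← ENNReal.ofReal_add (by positivity) (by positivity)]
    apply ENNReal.ofReal_le_ofReal
    rw [← sq_abs a]
    have h1 : 0 ≤ (|a| - ρ) ^ 2 := sq_nonneg _
    have h2 : 1 / (2 * ρ) * |a| ^ 2 + ρ / 2 = (|a| ^ 2 + ρ ^ 2) / (2 * ρ) := by
      field_simp
    rw [h2, le_div_iff₀ (by positivity)]
    nlinarith
  have hmain : ∫⁻ z in K, ∫⁻ z' in K, ENNReal.ofReal |fderiv ℝ g z z'|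
      ≤ ENNReal.ofReal ρ * volume K ^ 2 := by
    calc ∫⁻ z in K, ∫⁻ z' in K, ENNReal.ofReal |fderiv ℝ g z z'|
        ≤ ∫⁻ z in K, (ENNReal.ofReal (1 / (2 * ρ)) *
            (∫⁻ z' in K, ENNReal.ofReal ((fderiv ℝ g z z') ^ 2)) +
              ENNReal.ofReal (ρ / 2) * volume K) := by
          refine lintegral_mono fun z => ?_
          calc ∫⁻ z' in K, ENNReal.ofReal |fderiv ℝ g z z'|
              ≤ ∫⁻ z' in K, (ENNReal.ofReal (1 / (2 * ρ)) *
                ENNReal.ofReal ((fderiv ℝ g z z') ^ 2) + ENNReal.ofReal (ρ / 2)) :=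
                lintegral_mono fun v => hpt _
            _ = _ := by
                rw [lintegral_add_right _ measurable_const,
                  lintegral_const_mul' _ _ ENNReal.ofReal_ne_top, setLIntegral_const]
      _ = ENNReal.ofReal (1 / (2 * ρ)) *
            (∫⁻ z in K, ∫⁻ z' in K, ENNReal.ofReal ((fderiv ℝ g z z') ^ 2)) +
              ENNReal.ofReal (ρ / 2) * volume K * volume K := by
          rw [lintegral_add_right _ measurable_const,
            lintegral_const_mul' _ _ ENNReal.ofReal_ne_top, setLIntegral_const]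
      _ ≤ ENNReal.ofReal (1 / (2 * ρ)) * (ENNReal.ofReal (ρ ^ 2) * volume K ^ 2) +
              ENNReal.ofReal (ρ / 2) * volume K * volume K := by gcongr
      _ = ENNReal.ofReal ρ * volume K ^ 2 := by
          rw [← mul_assoc, ← ENNReal.ofReal_mul (by positivity)]
          have e2 : 1 / (2 * ρ) * ρ ^ 2 = ρ / 2 := by field_simp
          have e3 : ENNReal.ofReal ρ = ENNReal.ofReal (ρ / 2) + ENNReal.ofReal (ρ / 2) := by
            rw [← ENNReal.ofReal_add (by positivity) (by positivity)]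
            congr 1
            ring
          rw [e2, e3]
          ring
  have h2 := ENNReal.toReal_mono (ENNReal.mul_ne_top ENNReal.ofReal_ne_top
    (ENNReal.pow_ne_top hKf)) hmain
  rwa [ENNReal.toReal_mul, ENNReal.toReal_ofReal hρ.le, ENNReal.toReal_pow] at h2

end Pool.Agent.TH591.Sm
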